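import Pool.Agent.H67.CC.L.T4b

/-! # Counting events with bounded dependence -/

set_option autoImplicit false

namespace Pool.Agent.H67.CC

open Finset MeasureTheory Filter Topology Asymptotics
open Q198.CI

lemma summable_X (r : ℕ) (R : ℕ) : Summable (fun j : ℕ => (R : ℝ) * ((j ^ 2 : ℕ) : ℝ) *
    (1 / FN r (j ^ 2)) ^ 2) := by
  have h1 : (fun x : ℝ => Real.log x ^ ((2 * r : ℕ) : ℝ)) =o[atTop] fun x : ℝ => x ^ (1 / 2 : ℝ) :=
    isLittleO_log_rpow_rpow_atTop _ (by norm_num)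
  have h2 := (h1.comp_tendsto tendsto_natCast_atTop_atTop).def (c := 1) one_pos
  refine summable_of_isBigO_nat (g := fun j : ℕ => 1 / (j : ℝ) ^ (3 / 2 : ℝ))
    (Real.summable_one_div_nat_rpow.2 (by norm_num)) ?_
  apply IsBigO.of_bound ((R : ℝ) * 2 ^ (2 * r))
  filter_upwards [h2, eventually_ge_atTop 2] with j hj hj2
  have hj0 : (0:ℝ) < j := by exact_mod_cast (by omega : 0 < j)
  have hl : 0 < Real.log j := Real.log_pos (by exact_mod_cast (by omega : 1 < j))
  simp only [Function.comp_apply] at hj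
  rw [Real.rpow_natCast, one_mul, Real.norm_of_nonneg (by positivity),
    Real.norm_of_nonneg (by positivity)] at hj
  rw [Real.norm_of_nonneg (by positivity), Real.norm_of_nonneg (by positivity)]
  unfold FN gl
  push_cast
  rw [Real.log_pow]
  push_cast
  have h3 : (R : ℝ) * (j : ℝ) ^ 2 * (1 / ((j : ℝ) ^ 2 * (1 / (2 * Real.log j)) ^ r)) ^ 2 =
      (R : ℝ) * 2 ^ (2 * r) * (Real.log j ^ (2 * r) / (j : ℝ) ^ 2) := by
    have h5 : (1 / (2 * Real.log j)) ^ r = 1 / (2 ^ r * Real.log j ^ r) := by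
      rw [one_div_pow, mul_pow]
    rw [h5, pow_mul', pow_mul']
    field_simp
  rw [h3]
  apply mul_le_mul_of_nonneg_left _ (by positivity)
  rw [div_le_div_iff₀ (by positivity) (by positivity)]
  have h4 : (j : ℝ) ^ (1 / 2 : ℝ) * (j : ℝ) ^ (3 / 2 : ℝ) = (j : ℝ) ^ 2 := by
    rw [← Real.rpow_add hj0, ← Real.rpow_natCast]
    norm_num
  rw [one_mul, ← h4]
  exact mul_le_mul_of_nonneg_right hj (by positivity)

lemma ncard_count {Ω : Type*} (F : ℕ → Set Ω) (ω : Ω) {x : ℝ} (hx : 0 ≤ x) :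
    (({n : ℕ | (n : ℝ) ≤ x ∧ ω ∈ F n}.ncard : ℕ) : ℝ) =
      ∑ n ∈ range (⌊x⌋₊ + 1), (F n).indicator (fun _ => (1:ℝ)) ω := by
  classical
  have h1 : {n : ℕ | (n : ℝ) ≤ x ∧ ω ∈ F n} =
      ((range (⌊x⌋₊ + 1)).filter (fun n => ω ∈ F n) : Finset ℕ) := by
    ext n
    simp only [Set.mem_ofPred_eq, coe_filter, mem_range]
    rw [Nat.lt_succ_iff, Nat.le_floor_iff hx]
  rw [h1, Set.ncard_coe_finset, card_filter]
  push_cast
  refine sum_congr rfl fun n _ => ?_
  by_cases hn : ω ∈ F n <;> simp [hn]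

/-- the number of events of a sequence with bounded dependence -/
theorem count_law {Ω : Type*} [MeasurableSpace Ω] {P : Measure Ω} [IsProbabilityMeasure P]
    {F : ℕ → Set Ω} (hmeas : ∀ n, MeasurableSet (F n)) {r : ℕ} (hr0 : 0 < r)
    {m : ℕ → ℝ} (hm : m ~[atTop] gl r) {n₀ : ℕ} (hprob : ∀ n, n₀ ≤ n → P.real (F n) = m n)
    {D : ℕ → Finset ℕ} {R : ℕ} (hD : ∀ n, (D n).card ≤ R)
    (hind : ∀ n n', n₀ ≤ n → n₀ ≤ n' → n' ∉ D n → P.real (F n ∩ F n') = m n * m n') :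
    ∀ᵐ ω ∂P, Tendsto (fun x : ℝ => (({n : ℕ | (n : ℝ) ≤ x ∧ ω ∈ F n}.ncard : ℕ) : ℝ) *
      Real.log x ^ r / x) atTop (𝓝 1) := by
  classical
  set f : ℕ → Ω → ℝ := fun j ω => (∑ n ∈ Ico n₀ (j ^ 2),
    ((F n).indicator (fun _ => (1:ℝ)) ω - m n)) * (1 / FN r (j ^ 2)) with hf
  have hfm : ∀ j, Measurable (f j) := by
    intro j
    refine Measurable.mul_const (Finset.measurable_sum _ fun n _ => ?_) _
    exact (measurable_const.indicator (hmeas n)).sub_const _
  have hint : ∀ j, ∫⁻ ω, ENNReal.ofReal ((f j ω) ^ 2) ∂P ≤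
      ENNReal.ofReal ((R : ℝ) * ((j ^ 2 : ℕ) : ℝ) * (1 / FN r (j ^ 2)) ^ 2) := by
    intro j
    have h1 := second_moment P hmeas (Ico n₀ (j ^ 2)) m
      (fun n hn => hprob n (mem_Ico.1 hn).1) D R
      (fun n _ => hD n)
      (fun n hn n' hn' hd => hind n n' (mem_Ico.1 hn).1 (mem_Ico.1 hn').1 hd)
    have h2 : ∀ ω, ENNReal.ofReal ((f j ω) ^ 2) = ENNReal.ofReal ((∑ n ∈ Ico n₀ (j ^ 2),
        ((F n).indicator (fun _ => (1:ℝ)) ω - m n)) ^ 2) *
        ENNReal.ofReal ((1 / FN r (j ^ 2)) ^ 2) := by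
      intro ω
      simp only [hf]
      rw [mul_pow, ENNReal.ofReal_mul (sq_nonneg _)]
    simp_rw [h2]
    rw [lintegral_mul_const' _ _ ENNReal.ofReal_ne_top, ENNReal.ofReal_mul (by positivity)]
    gcongr
    refine h1.trans (ENNReal.ofReal_le_ofReal ?_)
    rw [Nat.card_Ico]
    apply mul_le_mul_of_nonneg_left _ (by positivity)
    exact_mod_cast Nat.sub_le _ _
  filter_upwards [ae_tendsto_zero P hfm (summable_X r R) hint] with ω hω
  set C : ℕ → ℝ := fun N => ∑ n ∈ range N, (F n).indicator (fun _ => (1:ℝ)) ω with hC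
  set M : ℕ → ℝ := fun N => ∑ n ∈ range N, m n with hMdef
  have hCmono : Monotone C := by
    intro N N' hN
    exact sum_le_sum_of_subset_of_nonneg (range_subset_range.2 hN) fun n _ _ =>
      Set.indicator_nonneg (fun _ _ => zero_le_one) _
  have hC0 : ∀ N, 0 ≤ C N := fun N => sum_nonneg fun n _ =>
    Set.indicator_nonneg (fun _ _ => zero_le_one) _
  have hsq : Tendsto (fun j : ℕ => j ^ 2) atTop atTop := tendsto_pow_atTop two_ne_zero
  have hFN : Tendsto (fun j : ℕ => FN r (j ^ 2)) atTop atTop := (FN_atTop r).comp hsq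
  -- along the squares
  have hφ : Tendsto (fun j : ℕ => C (j ^ 2) * (1 / FN r (j ^ 2))) atTop (𝓝 1) := by
    have h1 : Tendsto (fun j : ℕ => M (j ^ 2) * (1 / FN r (j ^ 2))) atTop (𝓝 1) := by
      have h2 : M ~[atTop] FN r := (sum_equiv hm (fun n => gl_nonneg _ n)
        (sum_gl_atTop hr0)).trans (sum_gl hr0)
      have h3 := (isEquivalent_iff_tendsto_one
        ((FN_atTop r).eventually_ne_atTop 0)).1 h2
      refine (h3.comp hsq).congr fun j => ?_
      rw [Function.comp_apply, Pi.div_apply, div_eq_mul_one_div]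
    have h2 : Tendsto (fun j : ℕ => (C n₀ - M n₀) * (1 / FN r (j ^ 2))) atTop (𝓝 0) := by
      have h3 := hFN.inv_tendsto_atTop.const_mul (C n₀ - M n₀)
      rw [mul_zero] at h3
      refine h3.congr fun j => ?_
      rw [Pi.inv_apply, one_div]
    have h3 := (h2.add hω).add h1
    rw [zero_add, zero_add] at h3
    refine h3.congr' ?_
    filter_upwards [hsq.eventually_ge_atTop n₀] with j hj
    simp only [hf]
    rw [← add_mul, ← add_mul, sum_sub_distrib]
    congr 1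
    have h4 : C (j ^ 2) = C n₀ + ∑ n ∈ Ico n₀ (j ^ 2), (F n).indicator (fun _ => (1:ℝ)) ω := by
      simp only [hC]
      exact (sum_range_add_sum_Ico _ hj).symm
    have h5 : M (j ^ 2) = M n₀ + ∑ n ∈ Ico n₀ (j ^ 2), m n := by
      simp only [hMdef]
      exact (sum_range_add_sum_Ico _ hj).symm
    rw [h4, h5]
    ring
  have hρ : Tendsto (fun j : ℕ => ((j : ℝ) / (j + 1)) ^ 2) atTop (𝓝 1) := by
    have := (tendsto_natCast_div_add_atTop (1:ℝ)).pow 2
    rw [one_pow] at this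
    exact this
  have hj : Tendsto (fun x : ℝ => ⌊Real.sqrt x⌋₊) atTop atTop :=
    tendsto_nat_floor_atTop.comp Real.tendsto_sqrt_atTop
  have hlow : Tendsto (fun j : ℕ => C (j ^ 2) * (1 / FN r (j ^ 2)) * ((j : ℝ) / (j + 1)) ^ 2) atTop
      (𝓝 1) := by
    have := hφ.mul hρ
    rwa [one_mul] at this
  have hup : Tendsto (fun j : ℕ => C ((j + 1) ^ 2) * (1 / FN r ((j + 1) ^ 2)) /
      ((j : ℝ) / (j + 1)) ^ 2) atTop (𝓝 1) := by
    have := (hφ.comp (tendsto_add_atTop_nat 1)).div hρ one_ne_zero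
    rwa [div_one] at this
  apply tendsto_of_tendsto_of_tendsto_of_le_of_le' (hlow.comp hj) (hup.comp hj)
  · filter_upwards [hj.eventually_ge_atTop 2, eventually_ge_atTop (0:ℝ)] with x hx hx0
    rw [Function.comp_apply, ncard_count F ω hx0]
    set j := ⌊Real.sqrt x⌋₊ with hjd
    have hj1 : (j : ℝ) ≤ Real.sqrt x := Nat.floor_le (Real.sqrt_nonneg _)
    have hj2 : Real.sqrt x < j + 1 := Nat.lt_floor_add_one _
    have hj0 : (2:ℝ) ≤ j := by exact_mod_cast hx
    have hx1 : (j : ℝ) ^ 2 ≤ x := by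
      rw [← Real.sq_sqrt hx0]
      exact pow_le_pow_left₀ (by linarith) hj1 2
    have hx2 : x < ((j : ℝ) + 1) ^ 2 := by
      rw [← Real.sq_sqrt hx0]
      exact pow_lt_pow_left₀ hj2 (Real.sqrt_nonneg _) two_ne_zero
    have hxpos : 0 < x := by nlinarith
    have hfl : j ^ 2 ≤ ⌊x⌋₊ + 1 := by
      have : j ^ 2 ≤ ⌊x⌋₊ := Nat.le_floor (by exact_mod_cast hx1)
      omega
    have hlj : 0 < Real.log ((j : ℝ) ^ 2) := Real.log_pos (by nlinarith)
    have hlx : Real.log ((j : ℝ) ^ 2) ≤ Real.log x := Real.log_le_log (by positivity) hx1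
    have e1 : C (j ^ 2) * (1 / FN r (j ^ 2)) * ((j : ℝ) / (j + 1)) ^ 2 =
        C (j ^ 2) * Real.log ((j : ℝ) ^ 2) ^ r / ((j : ℝ) + 1) ^ 2 := by
      unfold FN gl
      push_cast
      rw [one_div_pow]
      field_simp
    rw [e1]
    apply div_le_div₀ _ _ hxpos hx2.le
    · exact mul_nonneg (hC0 _) (pow_nonneg (hlj.le.trans hlx) _)
    · exact mul_le_mul (hCmono hfl) (pow_le_pow_left₀ hlj.le hlx r) (by positivity) (hC0 _)
  · filter_upwards [hj.eventually_ge_atTop 2, eventually_ge_atTop (0:ℝ)] with x hx hx0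
    rw [Function.comp_apply, ncard_count F ω hx0]
    set j := ⌊Real.sqrt x⌋₊ with hjd
    have hj1 : (j : ℝ) ≤ Real.sqrt x := Nat.floor_le (Real.sqrt_nonneg _)
    have hj2 : Real.sqrt x < j + 1 := Nat.lt_floor_add_one _
    have hj0 : (2:ℝ) ≤ j := by exact_mod_cast hx
    have hx1 : (j : ℝ) ^ 2 ≤ x := by
      rw [← Real.sq_sqrt hx0]
      exact pow_le_pow_left₀ (by linarith) hj1 2
    have hx2 : x < ((j : ℝ) + 1) ^ 2 := by
      rw [← Real.sq_sqrt hx0]
      exact pow_lt_pow_left₀ hj2 (Real.sqrt_nonneg _) two_ne_zero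
    have hxpos : 0 < x := by nlinarith
    have hx1' : 1 ≤ x := by nlinarith
    have hfl : ⌊x⌋₊ + 1 ≤ (j + 1) ^ 2 := by
      have : ⌊x⌋₊ < (j + 1) ^ 2 := by
        rw [Nat.floor_lt hx0]
        push_cast
        exact hx2
      omega
    have hlj : 0 < Real.log (((j : ℝ) + 1) ^ 2) := Real.log_pos (by nlinarith)
    have hlx : Real.log x ≤ Real.log (((j : ℝ) + 1) ^ 2) := Real.log_le_log hxpos hx2.le
    have e1 : C ((j + 1) ^ 2) * (1 / FN r ((j + 1) ^ 2)) / ((j : ℝ) / (j + 1)) ^ 2 =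
        C ((j + 1) ^ 2) * Real.log (((j : ℝ) + 1) ^ 2) ^ r / (j : ℝ) ^ 2 := by
      unfold FN gl
      push_cast
      rw [one_div_pow]
      field_simp
    rw [e1]
    apply div_le_div₀ _ _ (by positivity) hx1
    · exact mul_nonneg (hC0 _) (by positivity)
    · exact mul_le_mul (hCmono hfl) (pow_le_pow_left₀ (Real.log_nonneg hx1') hlx r)
        (pow_nonneg (Real.log_nonneg hx1') _) (hC0 _)

end Pool.Agent.H67.CC
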