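import Pool.Agent.H67.CC.Stm

/-! # CC-FIRST: the first moment bound for the lengths of Cunningham chains (helper95) -/

set_option autoImplicit false

namespace Pool.Agent.H67.CC

open Finset MeasureTheory Filter Topology

namespace FirstAux

theorem one {Ω : Type} [MeasurableSpace Ω] (P : Measure Ω) [IsProbabilityMeasure P] (κ : ℕ → ℕ)
    (E : ℕ → Set Ω) (hM : Model P κ E) (hκ : Monotone κ) {ε : ℝ} (hε : 0 < ε) :
    ∀ᵐ ω ∂P, ∀ᶠ n : ℕ in atTop, ⌈(1 + ε) * gg n⌉₊ ≤ κ n →
      ¬ Ch {n | ω ∈ E n} n ⌈(1 + ε) * gg n⌉₊ := by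
  classical
  set k : ℕ → ℕ := fun n => ⌈(1 + ε) * gg n⌉₊ with hk
  set v : ℕ → ℕ → ℕ := fun n i => 2 ^ i * (n + 1) - 1 with hv
  set T : ℕ → Finset ℕ := fun n => (range (k n)).image (v n) with hT
  have hvinj : ∀ n, Function.Injective (v n) := by
    intro n i j hij
    simp only [hv] at hij
    have h1 : 0 < 2 ^ i * (n + 1) := by positivity
    have h2 : 0 < 2 ^ j * (n + 1) := by positivity
    have h3 : 2 ^ i * (n + 1) = 2 ^ j * (n + 1) := by omega
    have h4 : 2 ^ i = 2 ^ j := Nat.eq_of_mul_eq_mul_right (Nat.succ_pos n) h3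
    exact Nat.pow_right_injective (le_refl 2) h4
  have hTc : ∀ n, (T n).card = k n := by
    intro n
    rw [hT]
    simp only
    rw [card_image_of_injective _ (hvinj n), card_range]
  have hvn : ∀ n i, n ≤ v n i := by
    intro n i
    simp only [hv]
    have : 1 * (n + 1) ≤ 2 ^ i * (n + 1) := Nat.mul_le_mul_right _ Nat.one_le_two_pow
    omega
  set F : ℕ → Set Ω := fun n => if 3 ≤ n ∧ k n ≤ κ n then ⋂ w ∈ T n, E w else ∅ with hF
  have hPF : ∀ n, P (F n) ≤ ENNReal.ofReal ((n : ℝ) ^ (-(1 + ε))) := by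
    intro n
    simp only [hF]
    split_ifs with hn
    · obtain ⟨hn3, hkn⟩ := hn
      rw [hM.indep (T n) (by
        intro w hw
        simp only [hT, mem_image] at hw
        obtain ⟨i, -, rfl⟩ := hw
        refine ⟨hn3.trans (hvn n i), ?_⟩
        rw [hTc]
        exact hkn.trans (hκ (hvn n i)))]
      refine ENNReal.ofReal_le_ofReal ?_
      have hn3' : (3 : ℝ) ≤ n := by exact_mod_cast hn3
      have hn0 : (0 : ℝ) < n := by linarith
      have hl1 : 1 < Real.log n := by
        rw [Real.lt_log_iff_exp_lt hn0]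
        have := Real.exp_one_lt_d9
        linarith
      have hll : 0 < Real.log (Real.log n) := Real.log_pos hl1
      have h1 : ∏ w ∈ T n, 1 / Real.log w ≤ ∏ _w ∈ T n, 1 / Real.log n := by
        refine prod_le_prod (fun w _ => one_div_nonneg.2 (Real.log_natCast_nonneg _)) fun w hw => ?_
        simp only [hT, mem_image] at hw
        obtain ⟨i, -, rfl⟩ := hw
        apply one_div_le_one_div_of_le (by linarith)
        exact Real.log_le_log hn0 (by exact_mod_cast hvn n i)
      refine h1.trans ?_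
      rw [prod_const, hTc]
      have h2 : (1 / Real.log n) ^ (k n) = Real.exp (-(k n * Real.log (Real.log n))) := by
        rw [Real.exp_neg, mul_comm, ← Real.rpow_def_of_pos (by linarith : 0 < Real.log n),
          Real.rpow_natCast, one_div, inv_pow]
      rw [h2, Real.rpow_def_of_pos hn0]
      apply Real.exp_le_exp.2
      have h3 : (1 + ε) * gg n ≤ k n := Nat.le_ceil _
      have h4 : gg n * Real.log (Real.log n) = Real.log n := by
        rw [gg, div_mul_cancel₀ _ hll.ne']
      have h5 : (1 + ε) * gg n * Real.log (Real.log n) ≤ k n * Real.log (Real.log n) := by gcongr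
      rw [mul_assoc, h4] at h5
      linarith
    · simp
  have hsum : ∑' n, P (F n) ≠ ⊤ := by
    have h1 : Summable (fun n : ℕ => (n : ℝ) ^ (-(1 + ε))) := Real.summable_nat_rpow.2 (by linarith)
    exact ne_top_of_le_ne_top h1.tsum_ofReal_ne_top (ENNReal.tsum_le_tsum hPF)
  filter_upwards [ae_eventually_notMem hsum] with ω hω
  filter_upwards [hω, eventually_ge_atTop 3] with n hn hn3 hkn hch
  apply hn
  simp only [hF]
  rw [if_pos ⟨hn3, hkn⟩]
  simp only [Set.mem_iInter]
  intro w hw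
  simp only [hT, mem_image, mem_range] at hw
  obtain ⟨i, hi, rfl⟩ := hw
  exact hch i hi

end FirstAux

theorem s_first' : S_FIRST := by
  intro Ω _ P _ κ E hM hκ
  have h : ∀ᵐ ω ∂P, ∀ j : ℕ, ∀ᶠ n : ℕ in atTop, ⌈(1 + 1 / ((j : ℝ) + 1)) * gg n⌉₊ ≤ κ n →
      ¬ Ch {n | ω ∈ E n} n ⌈(1 + 1 / ((j : ℝ) + 1)) * gg n⌉₊ := by
    rw [ae_all_iff]
    intro j
    exact FirstAux.one P κ E hM hκ (by positivity)
  filter_upwards [h] with ω hω ε hε
  obtain ⟨j, hj⟩ := exists_nat_one_div_lt hε
  filter_upwards [hω j, eventually_ge_atTop 3] with n hn hn3 hkn hch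
  have hn3' : (3 : ℝ) ≤ n := by exact_mod_cast hn3
  have hn0 : (0 : ℝ) < n := by linarith
  have hl1 : 1 < Real.log n := by
    rw [Real.lt_log_iff_exp_lt hn0]
    have := Real.exp_one_lt_d9
    linarith
  have hgg : 0 ≤ gg n := div_nonneg (by linarith) (Real.log_pos hl1).le
  have hle : ⌈(1 + 1 / ((j : ℝ) + 1)) * gg n⌉₊ ≤ ⌈(1 + ε) * gg n⌉₊ := by
    apply Nat.ceil_le_ceil
    gcongr
  exact hn (hle.trans hkn) (fun i hi => hch i (hi.trans_le hle))

theorem s_first (_ : S_GG) : S_FIRST := s_first'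

end Pool.Agent.H67.CC
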