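import Pool.Agent.H67.CC.Count

/-! # Values of linear forms -/

set_option autoImplicit false

namespace Pool.Agent.H67.CC

open Finset Filter Topology Asymptotics
open Q198.CI

/-- the value `a n + b` of the form `(a, b)` (`0` in place of a negative value) -/
def value (f : ℕ × ℤ) (n : ℕ) : ℕ := ((f.1 : ℤ) * n + f.2).toNat

/-- the values of a system of forms -/
def pt (L : Finset (ℕ × ℤ)) (n : ℕ) : Finset ℕ := L.image (fun f => value f n)

/-- a bound beyond which the values of the forms of a system are distinct and large -/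
def bd (L : Finset (ℕ × ℤ)) : ℕ := 2 * (∑ f ∈ L, f.2.natAbs) + 16

/-- the numbers `n'` for which the values of the system at `n` and `n'` may meet -/
def DD (L : Finset (ℕ × ℤ)) (n : ℕ) : Finset ℕ :=
  (L ×ˢ L).image (fun x => (((value x.1 n : ℤ) - x.2.2) / (x.2.1 : ℤ)).toNat)

lemma DD_card (L : Finset (ℕ × ℤ)) (n : ℕ) : (DD L n).card ≤ L.card ^ 2 := by
  unfold DD
  refine card_image_le.trans ?_
  rw [card_product, sq]

lemma natAbs_le_bd {L : Finset (ℕ × ℤ)} {f : ℕ × ℤ} (hf : f ∈ L) :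
    2 * f.2.natAbs + 16 ≤ bd L := by
  unfold bd
  have := single_le_sum (f := fun f : ℕ × ℤ => f.2.natAbs) (fun _ _ => Nat.zero_le _) hf
  omega

lemma value_cast {L : Finset (ℕ × ℤ)} {f : ℕ × ℤ} (hf : f ∈ L) (ha : 1 ≤ f.1) {n : ℕ}
    (hn : bd L ≤ n) : (value f n : ℤ) = (f.1 : ℤ) * n + f.2 := by
  unfold value
  have h1 := natAbs_le_bd hf
  have h2 : (n : ℤ) ≤ (f.1 : ℤ) * n := by nlinarith [(by exact_mod_cast ha : (1 : ℤ) ≤ f.1)]
  rw [Int.toNat_of_nonneg]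
  omega

lemma value_ge {L : Finset (ℕ × ℤ)} {f : ℕ × ℤ} (hf : f ∈ L) (ha : 1 ≤ f.1) {n : ℕ}
    (hn : bd L ≤ n) : n ≤ 2 * value f n := by
  have h0 := value_cast hf ha hn
  have h1 := natAbs_le_bd hf
  have h2 : (n : ℤ) ≤ (f.1 : ℤ) * n := by nlinarith [(by exact_mod_cast ha : (1 : ℤ) ≤ f.1)]
  omega

lemma value_inj {L : Finset (ℕ × ℤ)} (hL : ∀ f ∈ L, 1 ≤ f.1) {n : ℕ} (hn : bd L ≤ n) :
    Set.InjOn (fun f => value f n) (L : Set (ℕ × ℤ)) := by
  intro f hf g hg h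
  rw [mem_coe] at hf hg
  have h : value f n = value g n := h
  have h1 := value_cast hf (hL f hf) hn
  have h2 := value_cast hg (hL g hg) hn
  rw [h, h2] at h1
  by_contra hfg
  have h3 : f.2.natAbs + g.2.natAbs ≤ ∑ f ∈ L, f.2.natAbs := by
    rw [← sum_pair (f := fun f : ℕ × ℤ => f.2.natAbs) hfg]
    exact sum_le_sum_of_subset (insert_subset hf (singleton_subset_iff.2 hg))
  have h4 : 2 * (f.2.natAbs + g.2.natAbs) + 16 ≤ n := by
    unfold bd at hn
    omega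
  rcases lt_trichotomy f.1 g.1 with h5 | h5 | h5
  · have h6 : (f.1 : ℤ) * n + n ≤ (g.1 : ℤ) * n := by nlinarith [(by exact_mod_cast h5 : (f.1 : ℤ) + 1 ≤ g.1)]
    omega
  · rw [h5] at h1
    exact hfg (Prod.ext h5 (by omega))
  · have h6 : (g.1 : ℤ) * n + n ≤ (f.1 : ℤ) * n := by nlinarith [(by exact_mod_cast h5 : (g.1 : ℤ) + 1 ≤ f.1)]
    omega

lemma pt_card {L : Finset (ℕ × ℤ)} (hL : ∀ f ∈ L, 1 ≤ f.1) {n : ℕ} (hn : bd L ≤ n) :
    (pt L n).card = L.card := card_image_of_injOn (value_inj hL hn)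

lemma mem_pt {L : Finset (ℕ × ℤ)} {n v : ℕ} : v ∈ pt L n ↔ ∃ f ∈ L, value f n = v := by
  unfold pt
  rw [mem_image]

lemma mem_DD {L : Finset (ℕ × ℤ)} (hL : ∀ f ∈ L, 1 ≤ f.1) {n n' : ℕ} (hn' : bd L ≤ n')
    {f g : ℕ × ℤ} (hf : f ∈ L) (hg : g ∈ L) (h : value f n = value g n') : n' ∈ DD L n := by
  unfold DD
  rw [mem_image]
  refine ⟨(f, g), mem_product.2 ⟨hf, hg⟩, ?_⟩
  simp only
  have h2 := value_cast hg (hL g hg) hn'
  have h3 : (0 : ℤ) < g.1 := by exact_mod_cast (hL g hg)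
  rw [h, h2, add_sub_cancel_right, Int.mul_ediv_cancel_left _ h3.ne']
  simp

lemma disj {L : Finset (ℕ × ℤ)} (hL : ∀ f ∈ L, 1 ≤ f.1) {n n' : ℕ} (hn' : bd L ≤ n')
    (hD : n' ∉ DD L n) : Disjoint (pt L n) (pt L n') := by
  rw [Finset.disjoint_left]
  intro v hv hv'
  rw [mem_pt] at hv hv'
  obtain ⟨f, hf, rfl⟩ := hv
  obtain ⟨g, hg, h⟩ := hv'
  exact hD (mem_DD hL hn' hf hg h.symm)

lemma prod_pt {L : Finset (ℕ × ℤ)} (hL : ∀ f ∈ L, 1 ≤ f.1) {n : ℕ} (hn : bd L ≤ n) (g : ℕ → ℝ) :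
    ∏ v ∈ pt L n, g v = ∏ f ∈ L, g (value f n) := prod_image (value_inj hL hn)

lemma log_value {f : ℕ × ℤ} (ha : 1 ≤ f.1) :
    Tendsto (fun n : ℕ => Real.log n / Real.log (value f n)) atTop (𝓝 1) := by
  have hL : Tendsto (fun n : ℕ => Real.log n) atTop atTop :=
    Real.tendsto_log_atTop.comp tendsto_natCast_atTop_atTop
  have ha' : (0:ℝ) < f.1 := by exact_mod_cast ha
  have h1 : Tendsto (fun n : ℕ => (f.1 : ℝ) + (f.2 : ℝ) / n) atTop (𝓝 (f.1 + 0)) :=
    tendsto_const_nhds.add (tendsto_const_div_atTop_nhds_zero_nat (f.2 : ℝ))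
  rw [add_zero] at h1
  have h2 : Tendsto (fun n : ℕ => Real.log ((f.1 : ℝ) + (f.2 : ℝ) / n)) atTop (𝓝 (Real.log f.1)) :=
    h1.log ha'.ne'
  have h3 : Tendsto (fun n : ℕ => Real.log ((f.1 : ℝ) + (f.2 : ℝ) / n) / Real.log n) atTop (𝓝 0) :=
    h2.div_atTop hL
  have h4 : Tendsto (fun n : ℕ => (1 + Real.log ((f.1 : ℝ) + (f.2 : ℝ) / n) / Real.log n)⁻¹)
      atTop (𝓝 1) := by
    have := (tendsto_const_nhds (x := (1:ℝ))).add h3
    rw [add_zero] at this
    simpa using this.inv₀ one_ne_zero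
  refine h4.congr' ?_
  filter_upwards [hL.eventually_gt_atTop 0, eventually_gt_atTop 0, eventually_ge_atTop (bd {f}),
    h1.eventually (lt_mem_nhds ha')] with n hn hn0 hn1 hn2
  have hn' : (0:ℝ) < n := by exact_mod_cast hn0
  have h5 : (value f n : ℝ) = n * ((f.1 : ℝ) + (f.2 : ℝ) / n) := by
    have := value_cast (mem_singleton_self f) ha hn1
    have h6 : (value f n : ℝ) = (f.1 : ℝ) * n + f.2 := by exact_mod_cast this
    rw [h6]
    field_simp
  rw [h5, Real.log_mul hn'.ne' hn2.ne']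
  have : 1 + Real.log ((f.1 : ℝ) + (f.2 : ℝ) / n) / Real.log n =
      (Real.log n + Real.log ((f.1 : ℝ) + (f.2 : ℝ) / n)) / Real.log n := by
    field_simp
  rw [this, inv_div]

lemma value_equiv {L : Finset (ℕ × ℤ)} (hL : ∀ f ∈ L, 1 ≤ f.1) :
    (fun n : ℕ => ∏ f ∈ L, 1 / Real.log (value f n)) ~[atTop] gl L.card := by
  have hL' : Tendsto (fun n : ℕ => Real.log n) atTop atTop :=
    Real.tendsto_log_atTop.comp tendsto_natCast_atTop_atTop
  rw [isEquivalent_iff_tendsto_one]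
  · have h1 : Tendsto (fun n : ℕ => ∏ f ∈ L, Real.log n / Real.log (value f n)) atTop
        (𝓝 (∏ f ∈ L, 1)) := tendsto_finsetProd _ fun f hf => log_value (hL f hf)
    rw [prod_const_one] at h1
    refine h1.congr' ?_
    filter_upwards [hL'.eventually_gt_atTop 0] with n hn
    rw [Pi.div_apply]
    unfold gl
    rw [← prod_const, ← prod_div_distrib]
    refine prod_congr rfl fun a _ => ?_
    rw [div_div_eq_mul_div, div_one, one_div_mul_eq_div]
  · filter_upwards [hL'.eventually_gt_atTop 0] with n hn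
    unfold gl
    positivity

end Pool.Agent.H67.CC
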