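import Pool.Agent.H67.CC.Stm

/-! # CC-GG: elementary facts on `log n / log log n` (helper95) -/

set_option autoImplicit false

namespace Pool.Agent.H67.CC

open Finset MeasureTheory Filter Topology

namespace GGAux

/-- `x / log x` -/
theorem mono_aux {x y : ℝ} (hx : Real.exp 1 ≤ x) (hxy : x ≤ y) : x / Real.log x ≤ y / Real.log y := by
  have hx0 : 0 < x := (Real.exp_pos 1).trans_le hx
  have hy0 : 0 < y := hx0.trans_le hxy
  have h := Real.log_div_self_antitoneOn (a := x) (b := y) hx (hx.trans hxy) hxy
  simp only at h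
  have hlx : 1 ≤ Real.log x := by rw [Real.le_log_iff_exp_le hx0]; exact hx
  have hly : 1 ≤ Real.log y := by rw [Real.le_log_iff_exp_le hy0]; exact hx.trans hxy
  rw [div_le_div_iff₀ (by linarith) (by linarith)]
  rw [div_le_div_iff₀ hy0 hx0] at h
  linarith

theorem e_le_log {n : ℕ} (hn : 16 ≤ n) : Real.exp 1 ≤ Real.log n := by
  have h1 : Real.log 16 ≤ Real.log n := Real.log_le_log (by norm_num) (by exact_mod_cast hn)
  have h2 : Real.log 16 = 4 * Real.log 2 := by
    rw [show (16 : ℝ) = 2 ^ 4 by norm_num, Real.log_pow]; norm_num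
  have h3 := Real.log_two_gt_d9
  have h4 := Real.exp_one_lt_d9
  linarith

theorem tl : Tendsto (fun n : ℕ => Real.log n) atTop atTop :=
  Real.tendsto_log_atTop.comp tendsto_natCast_atTop_atTop

theorem tll : Tendsto (fun n : ℕ => Real.log (Real.log n)) atTop atTop :=
  Real.tendsto_log_atTop.comp tl

theorem tg : Tendsto gg atTop atTop := by
  have h1 : Tendsto (fun x : ℝ => Real.log x / x) atTop (𝓝 0) :=
    Real.isLittleO_log_id_atTop.tendsto_div_nhds_zero
  have h2 : Tendsto (fun x : ℝ => Real.log x / x) atTop (𝓝[>] 0) := by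
    rw [tendsto_nhdsWithin_iff]
    refine ⟨h1, ?_⟩
    filter_upwards [eventually_gt_atTop 1] with x hx
    exact div_pos (Real.log_pos hx) (by linarith)
  have h3 := h2.inv_tendsto_nhdsGT_zero
  have h4 := h3.comp tl
  refine h4.congr fun n => ?_
  simp only [Function.comp, Pi.inv_apply, gg, inv_div]

end GGAux

open GGAux

theorem s_gg : S_GG := by
  refine ⟨?_, tg, ?_, ?_, ?_⟩
  · intro m n hm hmn
    exact mono_aux (e_le_log hm) (Real.log_le_log (by
      have : 0 < m := by omega
      exact_mod_cast this) (by exact_mod_cast hmn))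
  · intro δ hδ
    filter_upwards [tl.eventually_ge_atTop 0, tll.eventually_ge_atTop (1 / δ), tll.eventually_gt_atTop 0]
      with n h1 h2 h3
    rw [gg, div_le_iff₀ h3]
    have h4 : 1 ≤ δ * Real.log (Real.log n) := by
      rw [div_le_iff₀ hδ] at h2; linarith
    nlinarith
  · intro c hc
    filter_upwards [tl.eventually_ge_atTop (Real.log 4 / (c - 1)), tll.eventually_gt_atTop 0, tl.eventually_gt_atTop 1,
      eventually_ge_atTop 1] with N h1 h2 h3 h4
    have hN : (0 : ℝ) < N := by exact_mod_cast h4
    have e1 : Real.log ((4 * N : ℕ) : ℝ) = Real.log 4 + Real.log N := by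
      push_cast
      rw [Real.log_mul (by norm_num) hN.ne']
    have hl4 : 0 ≤ Real.log 4 := Real.log_nonneg (by norm_num)
    have h5 : Real.log 4 ≤ (c - 1) * Real.log N := by
      rw [div_le_iff₀ (by linarith)] at h1; linarith
    rw [gg, gg, e1]
    have h6 : Real.log (Real.log N) ≤ Real.log (Real.log 4 + Real.log N) :=
      Real.log_le_log (by linarith) (by linarith)
    calc (Real.log 4 + Real.log N) / Real.log (Real.log 4 + Real.log N) ≤
          (Real.log 4 + Real.log N) / Real.log (Real.log N) := by
            gcongr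
      _ ≤ (c * Real.log N) / Real.log (Real.log N) := by
            gcongr
            linarith
      _ = _ := by ring
  · intro ε hε
    set β : ℝ := 1 / (1 + ε) with hβ
    have hβ0 : 0 < β := by positivity
    have hβ1 : β < 1 := by
      rw [hβ, div_lt_one (by linarith)]; linarith
    have hcoef : 0 < (1 + 2 * ε) * β - 1 := by
      rw [hβ]
      have : (1 + 2 * ε) * (1 / (1 + ε)) - 1 = ε / (1 + ε) := by field_simp; ring
      rw [this]; positivity
    filter_upwards [tl.eventually_ge_atTop ((1 + 2 * ε) * Real.log 2 / ((1 + 2 * ε) * β - 1)),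
      tl.eventually_ge_atTop ((Real.log 2 + 2) / β), tll.eventually_gt_atTop 0,
      eventually_ge_atTop 1] with N h1 h2 h3 h4
    have hN : (0 : ℝ) < N := by exact_mod_cast h4
    have hlN : 0 ≤ Real.log N := Real.log_nonneg (by exact_mod_cast h4)
    have h5 : (1 + 2 * ε) * Real.log 2 ≤ ((1 + 2 * ε) * β - 1) * Real.log N := by
      rw [div_le_iff₀ hcoef] at h1; linarith
    have h6 : Real.log 2 + 2 ≤ β * Real.log N := by
      rw [div_le_iff₀ hβ0] at h2; linarith
    set M := ⌊(N : ℝ) ^ β⌋₊ with hM
    have hpow : Real.exp 2 * 2 ≤ (N : ℝ) ^ β := by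
      rw [Real.rpow_def_of_pos hN]
      have : Real.exp 2 * 2 = Real.exp (2 + Real.log 2) := by
        rw [Real.exp_add, Real.exp_log (by norm_num)]
      rw [this]
      exact Real.exp_le_exp.2 (by linarith)
    have he2 : 1 ≤ Real.exp 2 := Real.one_le_exp (by norm_num)
    have hMlow : (N : ℝ) ^ β / 2 ≤ M := by
      have := Nat.lt_floor_add_one ((N : ℝ) ^ β)
      rw [← hM] at this
      linarith
    have hMup : (M : ℝ) ≤ N := by
      have h7 : (M : ℝ) ≤ (N : ℝ) ^ β := Nat.floor_le (by positivity)
      refine h7.trans ?_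
      calc (N : ℝ) ^ β ≤ (N : ℝ) ^ (1 : ℝ) := Real.rpow_le_rpow_of_exponent_le (by exact_mod_cast h4) hβ1.le
        _ = N := Real.rpow_one _
    have hM0 : (0 : ℝ) < M := lt_of_lt_of_le (by positivity) hMlow
    have hlM : β * Real.log N - Real.log 2 ≤ Real.log M := by
      have h8 := Real.log_le_log (by positivity) hMlow
      rw [Real.log_div (by positivity) (by norm_num), Real.log_rpow hN] at h8
      exact h8
    have hlM2 : 2 ≤ Real.log M := by linarith
    have hllM : 0 < Real.log (Real.log M) := Real.log_pos (by linarith)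
    have hle : Real.log (Real.log M) ≤ Real.log (Real.log N) :=
      Real.log_le_log (by linarith) (Real.log_le_log hM0 hMup)
    have h9 : Real.log N ≤ (1 + 2 * ε) * Real.log M := by nlinarith
    rw [gg, gg, ← mul_div_assoc]
    calc Real.log N / Real.log (Real.log N) ≤ ((1 + 2 * ε) * Real.log M) / Real.log (Real.log N) := by
          gcongr
      _ ≤ _ := by
          gcongr

end Pool.Agent.H67.CC
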