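import Pool.Agent.H67.CC.Up
import Pool.Agent.H67.CC.L.Glue3
import Pool.Agent.H50.L.CI.Dyad

/-! # A model with independence of order `2k - 1` without values of systems of `k` forms -/

set_option autoImplicit false

namespace Pool.Agent.H67.CC

open Finset MeasureTheory Filter Topology
open Q198.CI

/-- a greedy colouring -/
noncomputable def col (D : ℕ → Finset ℕ) (n : ℕ) : ℕ :=
  sInf {x | ∀ n' ∈ D n, ∀ _h : n' < n, x ≠ col D n'}
termination_by n

lemma col_spec {D : ℕ → Finset ℕ} {R : ℕ} (hD : ∀ n, (D n).card ≤ R) (n : ℕ) :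
    col D n ≤ R ∧ ∀ n' ∈ D n, n' < n → col D n ≠ col D n' := by
  classical
  have h1 : ∃ x ∈ range (R + 1), ∀ n' ∈ D n, ∀ _h : n' < n, x ≠ col D n' := by
    by_contra hc
    push Not at hc
    have h2 : range (R + 1) ⊆ (D n).image (col D) := by
      intro x hx
      obtain ⟨n', hn', _, h⟩ := hc x hx
      exact mem_image.2 ⟨n', hn', h.symm⟩
    have h3 := (card_le_card h2).trans card_image_le
    rw [card_range] at h3
    have := hD n
    omega
  obtain ⟨x, hx, hx2⟩ := h1
  have hmem : x ∈ {x | ∀ n' ∈ D n, ∀ _h : n' < n, x ≠ col D n'} := hx2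
  have h4 : col D n ∈ {x | ∀ n' ∈ D n, ∀ _h : n' < n, x ≠ col D n'} := by
    rw [col]
    exact Nat.sInf_mem ⟨x, hmem⟩
  have h5 : col D n ≤ x := by
    rw [col]
    exact Nat.sInf_le hmem
  rw [mem_range] at hx
  exact ⟨by omega, fun n' hn' hlt => h4 n' hn' hlt⟩

/-- the weight of a system -/
noncomputable def sw (L : Finset (ℕ × ℤ)) : ℝ := (1 / 2) ^ (Encodable.encode L + 1)

lemma sw_pos (L : Finset (ℕ × ℤ)) : 0 < sw L := by
  unfold sw
  positivity

/-- the edge weights -/
noncomputable def aw (k : ℕ) (L : Finset (ℕ × ℤ)) (n : ℕ) : ℝ :=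
  (1 / Real.log n) ^ (sw L / (2 * k))

lemma aw_tendsto {k : ℕ} (hk : 0 < k) (L : Finset (ℕ × ℤ)) : Tendsto (aw k L) atTop (𝓝 0) := by
  have h1 : Tendsto (fun n : ℕ => 1 / Real.log n) atTop (𝓝 0) := by
    have := (Real.tendsto_log_atTop.comp tendsto_natCast_atTop_atTop).inv_tendsto_atTop
    refine this.congr fun n => ?_
    simp
  have h2 : 0 < sw L / (2 * k) := div_pos (sw_pos L) (by
    have : (0:ℝ) < k := by exact_mod_cast hk
    positivity)
  have h3 := h1.rpow_const (p := sw L / (2 * k)) (Or.inr h2.le)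
  rw [Real.zero_rpow h2.ne'] at h3
  exact h3

lemma exists_start {k : ℕ} (hk : 0 < k) (L : Finset (ℕ × ℤ)) : ∃ N : ℕ, bd L ≤ N ∧
    Encodable.encode L ≤ N ∧ ∀ n, N ≤ n → aw k L n ≤ 1 / 2 := by
  have h1 := (aw_tendsto hk L).eventually_le_const (show (0:ℝ) < 1 / 2 by norm_num)
  obtain ⟨N, hN⟩ := eventually_atTop.1 h1
  refine ⟨max N (max (bd L) (Encodable.encode L)), by omega, by omega, fun n hn => hN n (by omega)⟩

lemma two_le_log {v : ℕ} (hv : 8 ≤ v) : 2 ≤ Real.log v := by
  rw [Real.le_log_iff_exp_le (by exact_mod_cast (by omega : 0 < v))]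
  have h1 : Real.exp 2 = Real.exp 1 * Real.exp 1 := by
    rw [← Real.exp_add]
    norm_num
  have h2 := Real.exp_one_lt_d9
  have h3 := Real.exp_pos 1
  have h4 : (8:ℝ) ≤ v := by exact_mod_cast hv
  nlinarith

theorem no_systems {k : ℕ} (hk : 0 < k) :
    ∃ (Ω : Type) (_ : MeasurableSpace Ω) (P : Measure Ω) (_ : IsProbabilityMeasure P)
      (E : ℕ → Set Ω), Model P (fun _ => 2 * k - 1) E ∧
      ∀ᵐ ω ∂P, ∀ L : Finset (ℕ × ℤ), L.card = k → (∀ f ∈ L, 1 ≤ f.1) →
        {n : ℕ | ∀ f ∈ L, ω ∈ E (value f n)}.Finite := by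
  classical
  have hk' : (0:ℝ) < k := by exact_mod_cast hk
  choose N hNb hNe hNa using fun L : Finset (ℕ × ℤ) => exists_start hk L
  let ι : Type := {x : Finset (ℕ × ℤ) × ℕ // (x.1.card = k ∧ ∀ f ∈ x.1, 1 ≤ f.1) ∧ N x.1 ≤ x.2}
  let e : ι → Finset ℕ := fun i => pt i.1.1 i.1.2
  have hbd : ∀ i : ι, bd i.1.1 ≤ i.1.2 := fun i => (hNb _).trans i.2.2
  have he : ∀ i, (e i).card = k := fun i => by
    simp only [e]
    rw [pt_card i.2.1.2 (hbd i)]
    exact i.2.1.1
  have h16 : ∀ i : ι, 16 ≤ i.1.2 := fun i => by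
    have := hbd i
    unfold bd at this
    omega
  have hge : ∀ (i : ι) (v : ℕ), v ∈ e i → i.1.2 ≤ 2 * v := by
    intro i v hv
    simp only [e, mem_pt] at hv
    obtain ⟨f, hf, rfl⟩ := hv
    exact value_ge hf (i.2.1.2 f hf) (hbd i)
  let a : ι → ℝ := fun i => aw k i.1.1 i.1.2
  have hlog : ∀ i : ι, 1 < Real.log i.1.2 := fun i => one_lt_log (by have := h16 i; omega)
  have ha : ∀ i, 0 < a i := by
    intro i
    simp only [a]
    unfold aw
    have := hlog i
    positivity
  have ha2 : ∀ i, a i ≤ 1 / 2 := fun i => hNa i.1.1 i.1.2 i.2.2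
  let c : ι → Finset (ℕ × ℤ) × ℕ := fun i => (i.1.1, col (DD i.1.1) i.1.2)
  have hfin : ∀ v : ℕ, {i : ι | v ∈ e i}.Finite := by
    intro v
    apply Set.Finite.of_injOn (f := fun i : ι => (Encodable.encode i.1.1, i.1.2))
      (t := ((range (2 * v + 1) ×ˢ range (2 * v + 1) : Finset (ℕ × ℕ)) : Set (ℕ × ℕ)))
    · intro i hi
      have hi' : v ∈ e i := hi
      have h0 := hge i v hi'
      have h1 := hNe i.1.1
      have h2 := i.2.2
      rw [mem_coe, mem_product, mem_range, mem_range]
      constructor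
      · show Encodable.encode i.1.1 < 2 * v + 1
        omega
      · show i.1.2 < 2 * v + 1
        omega
    · intro i _ j _ hij
      have hij' : (Encodable.encode i.1.1, i.1.2) = (Encodable.encode j.1.1, j.1.2) := hij
      have h1 : Encodable.encode i.1.1 = Encodable.encode j.1.1 := (Prod.mk.inj hij').1
      have h2 : i.1.2 = j.1.2 := (Prod.mk.inj hij').2
      have h3 := Encodable.encode_injective h1
      exact Subtype.ext (Prod.ext h3 h2)
    · exact Finset.finite_toSet _
  let F : ℕ → Finset ι := fun v => (hfin v).toFinset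
  have hF : ∀ v i, i ∈ F v ↔ v ∈ e i := by
    intro v i
    simp only [F, Set.Finite.mem_toFinset, Set.mem_ofPred_eq]
  -- the sum of the weights
  have hsum : ∀ v, ∑ i ∈ F v, sw i.1.1 / (2 * k) ≤ 1 / 2 := by
    intro v
    have hmaps : ∀ i ∈ F v, Encodable.encode i.1.1 ∈ range (2 * v + 1) := by
      intro i hi
      rw [hF] at hi
      have h0 := hge i v hi
      have h1 := hNe i.1.1
      have h2 := i.2.2
      rw [mem_range]
      omega
    rw [← sum_fiberwise_of_maps_to hmaps]
    have hin : ∀ m ∈ range (2 * v + 1), ∑ i ∈ (F v).filter (fun i => Encodable.encode i.1.1 = m),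
        sw i.1.1 / (2 * k) ≤ (1 / 2 : ℝ) ^ (m + 1) * (1 / 2) := by
      intro m _
      have h1 : ∑ i ∈ (F v).filter (fun i => Encodable.encode i.1.1 = m), sw i.1.1 / (2 * k) =
          ∑ i ∈ (F v).filter (fun i => Encodable.encode i.1.1 = m),
            (1 / 2 : ℝ) ^ (m + 1) / (2 * k) := by
        refine sum_congr rfl fun i hi => ?_
        rw [mem_filter] at hi
        unfold sw
        rw [hi.2]
      rw [h1, sum_const, nsmul_eq_mul]
      have h2 : ((F v).filter (fun i => Encodable.encode i.1.1 = m)).card ≤ k := by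
        rcases ((F v).filter (fun i => Encodable.encode i.1.1 = m)).eq_empty_or_nonempty with
          h3 | ⟨i₀, hi₀⟩
        · rw [h3]
          simp
        · rw [mem_filter] at hi₀
          refine le_trans ?_ i₀.2.1.1.le
          -- the form whose value is `v`
          have hform : ∀ i ∈ (F v).filter (fun i => Encodable.encode i.1.1 = m),
              ∃ f ∈ i₀.1.1, value f i.1.2 = v := by
            intro i hi
            rw [mem_filter, hF] at hi
            obtain ⟨h4, h4'⟩ := hi
            have h5 : i.1.1 = i₀.1.1 := Encodable.encode_injective (h4'.trans hi₀.2.symm)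
            simp only [e, mem_pt] at h4
            rw [← h5]
            exact h4
          choose! g hg1 hg2 using hform
          apply card_le_card_of_injOn g
          · intro i hi
            exact hg1 i hi
          · intro i hi j hj hij
            have hi' := hi
            have hj' := hj
            rw [mem_coe, mem_filter, hF] at hi' hj'
            have h5 : i.1.1 = i₀.1.1 := Encodable.encode_injective (hi'.2.trans hi₀.2.symm)
            have h5' : j.1.1 = i₀.1.1 := Encodable.encode_injective (hj'.2.trans hi₀.2.symm)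
            have h6 := hg2 i hi
            have h7 := hg2 j hj
            rw [← hij] at h7
            have hfm : g i ∈ i.1.1 := by
              rw [h5]
              exact hg1 i hi
            have hfm' : g i ∈ j.1.1 := by
              rw [h5']
              exact hg1 i hi
            have h8 := value_cast hfm (i.2.1.2 _ hfm) (hbd i)
            have h9 := value_cast hfm' (j.2.1.2 _ hfm') (hbd j)
            rw [h6] at h8
            rw [h7] at h9
            have h10 : (0 : ℤ) < (g i).1 := by exact_mod_cast (i.2.1.2 _ hfm)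
            have h11 : ((g i).1 : ℤ) * i.1.2 = (g i).1 * j.1.2 := by linarith
            have h12 : (i.1.2 : ℤ) = j.1.2 := mul_left_cancel₀ h10.ne' h11
            exact Subtype.ext (Prod.ext (h5.trans h5'.symm) (by exact_mod_cast h12))
      have h3 : (((F v).filter (fun i => Encodable.encode i.1.1 = m)).card : ℝ) ≤ k := by
        exact_mod_cast h2
      calc (((F v).filter (fun i => Encodable.encode i.1.1 = m)).card : ℝ) *
            ((1 / 2 : ℝ) ^ (m + 1) / (2 * k))
          ≤ k * ((1 / 2 : ℝ) ^ (m + 1) / (2 * k)) := mul_le_mul_of_nonneg_right h3 (by positivity)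
        _ = (1 / 2 : ℝ) ^ (m + 1) * (1 / 2) := by field_simp
    refine (sum_le_sum hin).trans ?_
    rw [← sum_mul]
    have h2 : ∑ m ∈ range (2 * v + 1), (1 / 2 : ℝ) ^ (m + 1) = 1 - (1 / 2) ^ (2 * v + 1) := by
      generalize 2 * v + 1 = w
      induction w with
      | zero => simp
      | succ w ih =>
        rw [sum_range_succ, ih]
        ring
    rw [h2]
    have : (0:ℝ) < (1 / 2) ^ (2 * v + 1) := by positivity
    linarith
  have hp1 : ∀ v, cp v ≤ ∏ i ∈ F v, a i := by
    intro v
    rcases (F v).eq_empty_or_nonempty with h0 | ⟨i₀, hi₀⟩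
    · rw [h0, prod_empty]
      unfold cp
      split_ifs with h
      · have := one_lt_log h
        rw [div_le_one (by linarith)]
        exact this.le
      · exact zero_le_one
    have hv8 : 8 ≤ v := by
      rw [hF] at hi₀
      have := hge i₀ v hi₀
      have := h16 i₀
      omega
    have hlv := two_le_log hv8
    have h1 : ∀ i ∈ F v, (1 / (2 * Real.log v)) ^ (sw i.1.1 / (2 * k)) ≤ a i := by
      intro i hi
      rw [hF] at hi
      have h2 := hlog i
      simp only [a]
      unfold aw
      apply Real.rpow_le_rpow (by positivity)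
      · apply one_div_le_one_div_of_le (by linarith)
        have h3 : Real.log i.1.2 ≤ Real.log ((v : ℝ) ^ 2) := by
          apply Real.log_le_log
          · have := h16 i
            exact_mod_cast (by omega : 0 < i.1.2)
          · have h4 := hge i v hi
            have h5 : i.1.2 ≤ v ^ 2 := by nlinarith
            exact_mod_cast h5
        rw [Real.log_pow] at h3
        exact_mod_cast h3
      · exact (div_pos (sw_pos _) (by positivity)).le
    have h20 : (0:ℝ) < 1 / (2 * Real.log v) := by positivity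
    calc cp v = 1 / Real.log v := by
          unfold cp
          rw [if_pos (by omega)]
      _ ≤ (1 / (2 * Real.log v)) ^ (1 / 2 : ℝ) := by
          rw [← Real.sqrt_eq_rpow]
          apply Real.le_sqrt_of_sq_le
          rw [div_pow, one_pow]
          apply one_div_le_one_div_of_le (by positivity)
          nlinarith
      _ ≤ (1 / (2 * Real.log v)) ^ (∑ i ∈ F v, sw i.1.1 / (2 * k)) := by
          apply Real.rpow_le_rpow_of_exponent_ge h20 _ (hsum v)
          rw [div_le_one (by linarith)]
          linarith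
      _ = ∏ i ∈ F v, (1 / (2 * Real.log v)) ^ (sw i.1.1 / (2 * k)) := by
          rw [Real.rpow_sum_of_pos h20]
      _ ≤ ∏ i ∈ F v, a i := prod_le_prod (fun i _ => by positivity) h1
  have hc : ∀ i j, i ≠ j → (e i ∪ e j).card < 2 * k → c i ≠ c j := by
    intro i j hij hcard hcc
    have hcc' : (i.1.1, col (DD i.1.1) i.1.2) = (j.1.1, col (DD j.1.1) j.1.2) := hcc
    have h1 : i.1.1 = j.1.1 := (Prod.mk.inj hcc').1
    have h2 : col (DD i.1.1) i.1.2 = col (DD j.1.1) j.1.2 := (Prod.mk.inj hcc').2
    have hne : i.1.2 ≠ j.1.2 := fun h => hij (Subtype.ext (Prod.ext h1 h))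
    have hdis : Disjoint (e i) (e j) := by
      simp only [e]
      rw [← h1] at h2 ⊢
      have hbj : bd i.1.1 ≤ j.1.2 := by
        rw [h1]
        exact hbd j
      rcases lt_or_gt_of_ne hne with hlt | hlt
      · by_contra hnd
        have h3 : i.1.2 ∈ DD i.1.1 j.1.2 := by
          by_contra h4
          exact hnd (disj i.2.1.2 (hbd i) h4).symm
        exact (col_spec (DD_card i.1.1) j.1.2).2 _ h3 hlt h2.symm
      · by_contra hnd
        have h3 : j.1.2 ∈ DD i.1.1 i.1.2 := by
          by_contra h4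
          exact hnd (disj i.2.1.2 hbj h4)
        exact (col_spec (DD_card i.1.1) i.1.2).2 _ h3 hlt h2
    rw [card_union_of_disjoint hdis, he, he] at hcard
    omega
  obtain ⟨Ω, mΩ, P, hP, E, hEm, hEi, hEae⟩ := glue3 (k := fun _ => k) (fun _ => hk) e he ha ha2 c F
    hF cp_nonneg hp1
  have hT' : ∀ T : Finset ℕ, T.card < 2 * k → P (⋂ v ∈ T, E v) =
      ENNReal.ofReal (∏ v ∈ T, cp v) := fun T hT => hEi T fun i j hij h1 h2 =>
    hc i j hij (lt_of_le_of_lt (card_le_card (union_subset h1 h2)) hT)
  refine ⟨Ω, mΩ, P, hP, E, ⟨hEm, fun T hT => ?_⟩, ?_⟩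
  · rcases T.eq_empty_or_nonempty with rfl | ⟨t, ht⟩
    · rw [hT' ∅ (by simp; omega)]
      simp
    · rw [hT' T (by have := (hT t ht).2; omega)]
      congr 1
      refine prod_congr rfl fun n hn => ?_
      unfold cp
      rw [if_pos (hT n hn).1]
  · filter_upwards [hEae] with ω hω L hcard hL
    obtain ⟨u, hu0, hu⟩ := hω
    set R := L.card ^ 2 with hR
    -- the smallest barrier
    obtain ⟨δ, hδ0, hδ⟩ : ∃ δ : ℝ, 0 < δ ∧ ∀ r ∈ range (R + 1), δ ≤ u (L, r) := by
      refine ⟨(range (R + 1)).inf' ⟨0, by simp⟩ (fun r => u (L, r)), ?_, fun r hr =>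
        inf'_le (fun r => u (L, r)) hr⟩
      rw [lt_inf'_iff]
      intro r _
      exact hu0 _
    obtain ⟨N₁, hN₁⟩ := eventually_atTop.1 ((aw_tendsto hk L).eventually_lt_const hδ0)
    apply Set.Finite.subset (Set.finite_Iio (max (N L) N₁))
    intro n hn
    rw [Set.mem_ofPred_eq] at hn
    rw [Set.mem_Iio]
    by_contra hge'
    push Not at hge'
    have h1 : N L ≤ n := le_trans (le_max_left _ _) hge'
    have h2 : N₁ ≤ n := le_trans (le_max_right _ _) hge'
    have h3 := hu ⟨(L, n), ⟨hcard, hL⟩, h1⟩ (by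
      intro v hv
      simp only [e, mem_pt] at hv
      obtain ⟨f, hf, rfl⟩ := hv
      exact hn f hf)
    have h4 := hN₁ n h2
    have h5 := hδ (col (DD L) n) (mem_range.2 (Nat.lt_succ_of_le (col_spec (DD_card L) n).1))
    have h6 : u (L, col (DD L) n) < aw k L n := h3
    linarith

end Pool.Agent.H67.CC
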