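import Pool.Agent.H67.CC.Stm
import Pool.Agent.H67.CC.Low
import Pool.Agent.H67.CC.L.Glue4

/-! # A model in which long Cunningham chains do not occur -/

set_option autoImplicit false

namespace Pool.Agent.H67.CC

open Finset MeasureTheory Filter Topology
open Q198.CI

lemma col_spec' (D : ℕ → Finset ℕ) (n : ℕ) :
    col D n ≤ (D n).card ∧ ∀ n' ∈ D n, n' < n → col D n ≠ col D n' := by
  classical
  have h1 : ∃ x ∈ range ((D n).card + 1), ∀ n' ∈ D n, ∀ _h : n' < n, x ≠ col D n' := by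
    by_contra hc
    push Not at hc
    have h2 : range ((D n).card + 1) ⊆ (D n).image (col D) := by
      intro x hx
      obtain ⟨n', hn', _, h⟩ := hc x hx
      exact mem_image.2 ⟨n', hn', h.symm⟩
    have h3 := (card_le_card h2).trans card_image_le
    rw [card_range] at h3
    omega
  obtain ⟨x, hx, hx2⟩ := h1
  have hmem : x ∈ {x | ∀ n' ∈ D n, ∀ _h : n' < n, x ≠ col D n'} := hx2
  have h4 : col D n ∈ {x | ∀ n' ∈ D n, ∀ _h : n' < n, x ≠ col D n'} := by
    rw [col]
    exact Nat.sInf_mem ⟨x, hmem⟩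
  have h5 : col D n ≤ x := by
    rw [col]
    exact Nat.sInf_le hmem
  rw [mem_range] at hx
  exact ⟨by omega, fun n' hn' hlt => h4 n' hn' hlt⟩

/-- the vertices of a chain -/
def ch (n k : ℕ) : Finset ℕ := (range k).image fun i => 2 ^ i * (n + 1) - 1

lemma pos_aux (i n : ℕ) : 1 ≤ 2 ^ i * (n + 1) := Nat.mul_pos (Nat.two_pow_pos i) (Nat.succ_pos n)

lemma mem_ch {n k v : ℕ} : v ∈ ch n k ↔ ∃ i < k, v + 1 = 2 ^ i * (n + 1) := by
  unfold ch
  simp only [mem_image, mem_range]
  constructor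
  · rintro ⟨i, hi, rfl⟩
    exact ⟨i, hi, Nat.sub_add_cancel (pos_aux i n)⟩
  · rintro ⟨i, hi, h⟩
    exact ⟨i, hi, by omega⟩

lemma self_mem_ch {n k : ℕ} (hk : 0 < k) : n ∈ ch n k := mem_ch.2 ⟨0, hk, by simp⟩

lemma ch_card (n k : ℕ) : (ch n k).card = k := by
  unfold ch
  rw [card_image_of_injOn, card_range]
  intro i _ j _ h
  have h : 2 ^ i * (n + 1) - 1 = 2 ^ j * (n + 1) - 1 := h
  have h1 := pos_aux i n
  have h2 := pos_aux j n
  have h3 : 2 ^ i * (n + 1) = 2 ^ j * (n + 1) := by omega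
  exact Nat.pow_right_injective le_rfl (Nat.eq_of_mul_eq_mul_right (Nat.succ_pos n) h3)

lemma val_eq {n v i : ℕ} (h : v + 1 = 2 ^ i * (n + 1)) :
    padicValNat 2 (v + 1) = i + padicValNat 2 (n + 1) := by
  rw [h, padicValNat.mul (by positivity) (by omega), padicValNat.prime_pow]

lemma tt_mono (h : S_GG) {κ : ℕ → ℕ} (hκ : Monotone κ) : Monotone (tt κ) := by
  intro m n hmn
  unfold tt
  by_cases h16 : 16 ≤ m
  · rw [if_pos h16, if_pos (h16.trans hmn)]
    apply min_le_min (hκ hmn)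
    apply Nat.floor_mono
    have := h.1 m n h16 hmn
    linarith
  · rw [if_neg h16]
    exact Nat.zero_le _

lemma uu_mono (h : S_GG) {κ : ℕ → ℕ} (hκ : Monotone κ) : Monotone (uu κ) := fun _ _ hmn =>
  Nat.log_mono_right (tt_mono h hκ hmn)

lemma log4_le (u : ℕ) : Nat.log 4 (u / 2) ≤ u := (Nat.log_le_self 4 _).trans (Nat.div_le_self u 2)

lemma ex_mono : Monotone fun u : ℕ => u - Nat.log 4 (u / 2) := by
  apply monotone_nat_of_le_succ
  intro u
  have h1 : Nat.log 4 ((u + 1) / 2) ≤ Nat.log 4 (u / 2) + 1 := by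
    rcases Nat.eq_zero_or_pos (u / 2) with h | h
    · have : (u + 1) / 2 ≤ 1 := by omega
      calc Nat.log 4 ((u + 1) / 2) ≤ Nat.log 4 1 := Nat.log_mono_right this
        _ = 0 := by simp
        _ ≤ _ := Nat.zero_le _
    · calc Nat.log 4 ((u + 1) / 2) ≤ Nat.log 4 ((u / 2) * 4) := Nat.log_mono_right (by omega)
        _ = Nat.log 4 (u / 2) + 1 := Nat.log_mul_base (by norm_num) (by omega)
  have h2 := log4_le u
  show u - Nat.log 4 (u / 2) ≤ (u + 1) - Nat.log 4 ((u + 1) / 2)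
  omega

lemma ss_dvd (h : S_GG) {κ : ℕ → ℕ} (hκ : Monotone κ) {m n : ℕ} (hmn : m ≤ n) :
    ss κ m ∣ ss κ n := by
  unfold ss
  exact pow_dvd_pow 2 (ex_mono (uu_mono h hκ hmn))

/-- the bound for the number of edges through a vertex -/
noncomputable def bb (κ : ℕ → ℕ) (n : ℕ) : ℕ := 2 ^ Nat.log 4 (uu κ n / 2)

lemma bb_pos (κ : ℕ → ℕ) (n : ℕ) : 0 < bb κ n := Nat.two_pow_pos _

lemma bb_mono (h : S_GG) {κ : ℕ → ℕ} (hκ : Monotone κ) : Monotone (bb κ) := fun _ _ hmn =>
  Nat.pow_le_pow_right (by norm_num)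
    (Nat.log_mono_right (Nat.div_le_div_right (uu_mono h hκ hmn)))

lemma ss_mul_bb (κ : ℕ → ℕ) (n : ℕ) : ss κ n * bb κ n = 2 ^ uu κ n := by
  unfold ss bb
  rw [← pow_add, Nat.sub_add_cancel (log4_le _)]

/-- an edge starts at `n` -/
def Act (κ : ℕ → ℕ) (n : ℕ) : Prop :=
  16 ≤ n ∧ (κ n : ℝ) ≤ 4 * gg n ∧ ss κ n ∣ padicValNat 2 (n + 1)

lemma Act.tt_eq {κ : ℕ → ℕ} {n : ℕ} (h : Act κ n) : tt κ n = κ n := by
  unfold tt
  rw [if_pos h.1, min_eq_left (Nat.le_floor h.2.1)]

/-- the number of edges through a vertex -/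
lemma count_edges (h : S_GG) {κ : ℕ → ℕ} (hκ : Monotone κ) {S : Finset ℕ} {v : ℕ}
    (hS : ∀ n ∈ S, Act κ n ∧ v ∈ ch n (κ n / 2 + 1)) {m : ℕ} (hm : m ∈ S)
    (hmin : ∀ n ∈ S, m ≤ n) : S.card ≤ bb κ m := by
  classical
  obtain ⟨ham, hvm⟩ := hS m hm
  rw [mem_ch] at hvm
  obtain ⟨I, hI, hvI⟩ := hvm
  have hVm := val_eq hvI
  have hs0 : 0 < ss κ m := Nat.two_pow_pos _
  have hlt : I < ss κ m * bb κ m := by
    rw [ss_mul_bb]
    have h1 : tt κ m < 2 ^ (uu κ m + 1) := Nat.lt_pow_succ_log_self (by norm_num) _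
    rw [ham.tt_eq, pow_succ] at h1
    omega
  have key : ∀ n ∈ S, ∃ i, v + 1 = 2 ^ i * (n + 1) ∧ i ≤ I ∧
      padicValNat 2 (n + 1) = padicValNat 2 (m + 1) + (I - i) ∧ ss κ m ∣ (I - i) := by
    intro n hn
    obtain ⟨han, hvn⟩ := hS n hn
    rw [mem_ch] at hvn
    obtain ⟨i, hi, hvi⟩ := hvn
    have hVn := val_eq hvi
    have hle : i ≤ I := by
      by_contra hc
      push Not at hc
      have h1 : 2 ^ I * (m + 1) < 2 ^ i * (n + 1) := by
        calc 2 ^ I * (m + 1) ≤ 2 ^ I * (n + 1) := Nat.mul_le_mul_left _ (by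
              have := hmin n hn
              omega)
          _ < 2 ^ i * (n + 1) := Nat.mul_lt_mul_of_pos_right
              (Nat.pow_lt_pow_right (by norm_num) hc) (Nat.succ_pos n)
      omega
    have h2 : padicValNat 2 (n + 1) = padicValNat 2 (m + 1) + (I - i) := by omega
    refine ⟨i, hvi, hle, h2, ?_⟩
    have h3 : ss κ m ∣ padicValNat 2 (n + 1) := (ss_dvd h hκ (hmin n hn)).trans han.2.2
    rw [h2] at h3
    exact (Nat.dvd_add_right ham.2.2).1 h3
  have h4 : S.card ≤ (range (bb κ m)).card := by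
    apply card_le_card_of_injOn
      (fun n => (padicValNat 2 (n + 1) - padicValNat 2 (m + 1)) / ss κ m)
    · intro n hn
      obtain ⟨i, _, hi2, hi3, _⟩ := key n hn
      rw [mem_coe, mem_range]
      show (padicValNat 2 (n + 1) - padicValNat 2 (m + 1)) / ss κ m < bb κ m
      rw [hi3, Nat.add_sub_cancel_left]
      apply Nat.div_lt_of_lt_mul
      omega
    · intro n hn n' hn' hnn
      obtain ⟨i, hi1, hi2, hi3, hi4⟩ := key n hn
      obtain ⟨j, hj1, hj2, hj3, hj4⟩ := key n' hn'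
      have hnn : (padicValNat 2 (n + 1) - padicValNat 2 (m + 1)) / ss κ m =
        (padicValNat 2 (n' + 1) - padicValNat 2 (m + 1)) / ss κ m := hnn
      rw [hi3, hj3, Nat.add_sub_cancel_left, Nat.add_sub_cancel_left] at hnn
      have h5 : I - i = I - j := (Nat.div_left_inj hi4 hj4).1 hnn
      have h6 : i = j := by omega
      rw [h6, hj1] at hi1
      have := Nat.eq_of_mul_eq_mul_left (Nat.two_pow_pos j) hi1
      omega
  rwa [card_range] at h4

lemma tt_tendsto (h : S_GG) {κ : ℕ → ℕ} (hκ : Tendsto κ atTop atTop) :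
    Tendsto (tt κ) atTop atTop := by
  have h1 : Tendsto (fun n : ℕ => ⌊4 * gg n⌋₊) atTop atTop :=
    tendsto_nat_floor_atTop.comp (h.2.1.const_mul_atTop (by norm_num))
  rw [tendsto_atTop]
  intro b
  filter_upwards [hκ.eventually_ge_atTop b, h1.eventually_ge_atTop b, eventually_ge_atTop 16]
    with n h2 h3 h4
  unfold tt
  rw [if_pos h4]
  exact le_min h2 h3

lemma nat_log_tendsto {b : ℕ} (hb : 1 < b) : Tendsto (Nat.log b) atTop atTop := by
  rw [tendsto_atTop]
  intro c
  filter_upwards [eventually_ge_atTop (b ^ c)] with n hn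
  exact Nat.le_log_of_pow_le hb hn

lemma bb_tendsto (h : S_GG) {κ : ℕ → ℕ} (hκ : Tendsto κ atTop atTop) :
    Tendsto (bb κ) atTop atTop := by
  have h1 : Tendsto (uu κ) atTop atTop := (nat_log_tendsto (by norm_num)).comp (tt_tendsto h hκ)
  have h2 : Tendsto (fun n => uu κ n / 2) atTop atTop :=
    (Nat.tendsto_div_const_atTop (by norm_num)).comp h1
  have h3 : Tendsto (fun n => Nat.log 4 (uu κ n / 2)) atTop atTop :=
    (nat_log_tendsto (by norm_num)).comp h2
  exact (tendsto_pow_atTop_atTop_of_one_lt (r := (2:ℕ)) (by norm_num)).comp h3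

/-- the square of the bound is at most `log log n` -/
lemma bb_sq (κ : ℕ → ℕ) : ∀ᶠ n : ℕ in atTop, ((bb κ n : ℕ) : ℝ) ^ 2 ≤ Real.log (Real.log n) := by
  have hLL : Tendsto (fun n : ℕ => Real.log (Real.log n)) atTop atTop :=
    Real.tendsto_log_atTop.comp (Real.tendsto_log_atTop.comp tendsto_natCast_atTop_atTop)
  filter_upwards [hLL.eventually_ge_atTop 4, eventually_ge_atTop 16] with n hn hn16
  have hl2 := Real.log_two_gt_d9
  have hl2' := Real.log_two_lt_d9
  have hlogn : 0 < Real.log n := by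
    apply Real.log_pos
    exact_mod_cast (by omega : 1 < n)
  -- the bound for `u`
  have hu : (uu κ n : ℝ) * Real.log 2 ≤ 2 * Real.log 2 + Real.log (Real.log n) := by
    rcases Nat.eq_zero_or_pos (tt κ n) with h0 | h0
    · have : uu κ n = 0 := by
        unfold uu
        rw [h0]
        simp
      rw [this]
      push_cast
      nlinarith
    · have h1 : 2 ^ uu κ n ≤ tt κ n := Nat.pow_log_le_self 2 h0.ne'
      have h2 : tt κ n ≤ ⌊4 * gg n⌋₊ := by
        unfold tt
        rw [if_pos hn16]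
        exact min_le_right _ _
      have hgg : 0 < gg n := by
        unfold gg
        positivity
      have h3 : ((2 : ℝ) ^ uu κ n) ≤ 4 * gg n := by
        have h4 : ((2 ^ uu κ n : ℕ) : ℝ) ≤ (⌊4 * gg n⌋₊ : ℝ) := by exact_mod_cast h1.trans h2
        push_cast at h4
        exact h4.trans (Nat.floor_le (by positivity))
      have h5 : (2:ℝ) ^ uu κ n ≤ 4 * Real.log n := by
        refine h3.trans ?_
        have : gg n ≤ Real.log n := by
          unfold gg
          rw [div_le_iff₀ (by linarith)]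
          nlinarith
        linarith
      have h6 := Real.log_le_log (by positivity) h5
      rw [Real.log_pow, Real.log_mul (by norm_num) hlogn.ne'] at h6
      have h7 : Real.log 4 = 2 * Real.log 2 := by
        rw [show (4:ℝ) = 2 ^ 2 by norm_num, Real.log_pow]
        norm_num
      linarith
  have hu2 : ((uu κ n / 2 : ℕ) : ℝ) ≤ Real.log (Real.log n) := by
    have h1 : ((uu κ n / 2 : ℕ) : ℝ) ≤ (uu κ n : ℝ) / 2 := Nat.cast_div_le
    have h2 : (uu κ n : ℝ) ≤ 2 + Real.log (Real.log n) / Real.log 2 := by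
      rw [← sub_le_iff_le_add', le_div_iff₀ (by linarith)]
      linarith
    have h3 : Real.log (Real.log n) / Real.log 2 ≤ Real.log (Real.log n) * 1.45 := by
      rw [div_le_iff₀ (by linarith)]
      nlinarith
    linarith
  unfold bb
  rcases Nat.eq_zero_or_pos (uu κ n / 2) with h0 | h0
  · rw [h0]
    simp
    linarith
  · have h1 : 4 ^ Nat.log 4 (uu κ n / 2) ≤ uu κ n / 2 := Nat.pow_log_le_self 4 h0.ne'
    have h2 : (((2 ^ Nat.log 4 (uu κ n / 2) : ℕ) : ℝ)) ^ 2 =
        ((4 ^ Nat.log 4 (uu κ n / 2) : ℕ) : ℝ) := by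
      push_cast
      rw [← pow_mul, mul_comm, pow_mul]
      norm_num
    rw [h2]
    exact (by exact_mod_cast h1 : ((4 ^ Nat.log 4 (uu κ n / 2) : ℕ) : ℝ) ≤
      ((uu κ n / 2 : ℕ) : ℝ)).trans hu2

/-- the weight of an edge -/
noncomputable def wt (κ : ℕ → ℕ) (n : ℕ) : ℝ := (1 / Real.log n) ^ (1 / (bb κ n : ℝ))

lemma wt_le {κ : ℕ → ℕ} {n : ℕ} (hn : 3 ≤ n)
    (h : ((bb κ n : ℕ) : ℝ) ^ 2 ≤ Real.log (Real.log n)) : wt κ n ≤ Real.exp (-(bb κ n : ℝ)) := by
  have hl := one_lt_log hn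
  have hb : (0:ℝ) < bb κ n := by exact_mod_cast bb_pos κ n
  unfold wt
  rw [Real.rpow_def_of_pos (by positivity)]
  apply Real.exp_le_exp.2
  rw [one_div, Real.log_inv, mul_one_div, neg_div, neg_le_neg_iff, le_div_iff₀ hb, ← sq]
  exact h

theorem s_grid (h : S_GG) : S_GRID := by
  classical
  intro κ hmono hκ
  obtain ⟨N₁, hN₁⟩ := eventually_atTop.1 (bb_sq κ)
  set N₀ := max 16 N₁ with hN₀
  let ι : Type := {n : ℕ // N₀ ≤ n ∧ Act κ n}
  let k : ι → ℕ := fun i => κ i.1 / 2 + 1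
  let e : ι → Finset ℕ := fun i => ch i.1 (κ i.1 / 2 + 1)
  have he : ∀ i, (e i).card = k i := fun i => ch_card _ _
  have h3 : ∀ i : ι, 3 ≤ i.1 := fun i => by
    have := i.2.1
    omega
  have hsq : ∀ i : ι, ((bb κ i.1 : ℕ) : ℝ) ^ 2 ≤ Real.log (Real.log i.1) := fun i =>
    hN₁ i.1 (by
      have := i.2.1
      omega)
  let a : ι → ℝ := fun i => wt κ i.1
  have ha : ∀ i, 0 < a i := by
    intro i
    have := one_lt_log (h3 i)
    simp only [a]
    unfold wt
    positivity
  have hae : ∀ i, a i ≤ Real.exp (-(bb κ i.1 : ℝ)) := fun i => wt_le (h3 i) (hsq i)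
  have ha2 : ∀ i, a i ≤ 1 / 2 := by
    intro i
    refine (hae i).trans ?_
    have h1 : (1:ℝ) ≤ bb κ i.1 := by exact_mod_cast bb_pos κ i.1
    calc Real.exp (-(bb κ i.1 : ℝ)) ≤ Real.exp (-1) := Real.exp_le_exp.2 (by linarith)
      _ ≤ 1 / 2 := by
        rw [Real.exp_neg, one_div]
        apply inv_anti₀ (by norm_num)
        have := Real.add_one_le_exp (1:ℝ)
        linarith
  let D : ℕ → Finset ℕ := fun v => (range v).filter fun n =>
    (N₀ ≤ n ∧ Act κ n) ∧ v ∈ ch n (κ n / 2 + 1)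
  have hDcard : ∀ v, (D v).card ≤ bb κ v := by
    intro v
    rcases (D v).eq_empty_or_nonempty with h0 | h0
    · rw [h0, card_empty]
      exact Nat.zero_le _
    · have h1 := min'_mem (D v) h0
      have h2 : (D v).min' h0 ≤ v := by
        have := (mem_range.1 (mem_filter.1 h1).1)
        omega
      refine le_trans ?_ (bb_mono h hmono h2)
      exact count_edges h hmono (v := v) (fun n hn => by
        rw [mem_filter] at hn
        exact ⟨hn.2.1.2, hn.2.2⟩) h1 fun n hn => min'_le _ n hn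
  let c : ι → ℕ := fun i => col D i.1
  have hcle : ∀ i, c i ≤ bb κ i.1 := fun i => (col_spec' D i.1).1.trans (hDcard i.1)
  have hle : ∀ (i : ι) (v : ℕ), v ∈ e i → i.1 ≤ v := by
    intro i v hv
    simp only [e, mem_ch] at hv
    obtain ⟨j, _, hj⟩ := hv
    have : 1 * (i.1 + 1) ≤ 2 ^ j * (i.1 + 1) := Nat.mul_le_mul_right _ Nat.one_le_two_pow
    omega
  have hfin : ∀ v : ℕ, {i : ι | v ∈ e i}.Finite := by
    intro v
    apply Set.Finite.of_injOn (f := fun i : ι => i.1) (t := Set.Iic v)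
    · intro i hi
      exact hle i v hi
    · intro i _ j _ hij
      exact Subtype.ext hij
    · exact Set.finite_Iic v
  let F : ℕ → Finset ι := fun v => (hfin v).toFinset
  have hF : ∀ v i, i ∈ F v ↔ v ∈ e i := by
    intro v i
    simp only [F, Set.Finite.mem_toFinset, Set.mem_ofPred_eq]
  have hsum : ∀ v, ∑ i ∈ F v, 1 / (bb κ i.1 : ℝ) ≤ 1 := by
    intro v
    rcases (F v).eq_empty_or_nonempty with h0 | h0
    · rw [h0, sum_empty]
      exact zero_le_one
    set S : Finset ℕ := (F v).map (Function.Embedding.subtype _) with hS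
    have hSne : S.Nonempty := h0.map
    have hSmem : ∀ n ∈ S, Act κ n ∧ v ∈ ch n (κ n / 2 + 1) := by
      intro n hn
      rw [hS, Finset.mem_map] at hn
      obtain ⟨i, hi, rfl⟩ := hn
      exact ⟨i.2.2, (hF v i).1 hi⟩
    have h1 : S.card ≤ bb κ (S.min' hSne) :=
      count_edges h hmono hSmem (min'_mem S hSne) fun n hn => min'_le _ n hn
    have h2 : ∑ i ∈ F v, 1 / (bb κ i.1 : ℝ) = ∑ n ∈ S, 1 / (bb κ n : ℝ) := by
      rw [hS, sum_map]
      rfl
    have hb : (0:ℝ) < bb κ (S.min' hSne) := by exact_mod_cast bb_pos κ _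
    rw [h2]
    calc ∑ n ∈ S, 1 / (bb κ n : ℝ) ≤ ∑ n ∈ S, 1 / (bb κ (S.min' hSne) : ℝ) := by
          refine sum_le_sum fun n hn => ?_
          apply one_div_le_one_div_of_le hb
          exact_mod_cast bb_mono h hmono (min'_le _ n hn)
      _ = S.card * (1 / (bb κ (S.min' hSne) : ℝ)) := by
          rw [sum_const, nsmul_eq_mul]
      _ ≤ bb κ (S.min' hSne) * (1 / (bb κ (S.min' hSne) : ℝ)) := by
          apply mul_le_mul_of_nonneg_right _ (by positivity)
          exact_mod_cast h1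
      _ = 1 := mul_one_div_cancel hb.ne'
  have hp1 : ∀ v, cp v ≤ ∏ i ∈ F v, a i := by
    intro v
    by_cases hv : 3 ≤ v
    · have hlv := one_lt_log hv
      have h20 : (0:ℝ) < 1 / Real.log v := by positivity
      have h1 : ∀ i ∈ F v, (1 / Real.log v) ^ (1 / (bb κ i.1 : ℝ)) ≤ a i := by
        intro i hi
        rw [hF] at hi
        have h2 := one_lt_log (h3 i)
        simp only [a]
        unfold wt
        apply Real.rpow_le_rpow h20.le
        · apply one_div_le_one_div_of_le (by linarith)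
          apply Real.log_le_log
          · have := h3 i
            exact_mod_cast (by omega : 0 < i.1)
          · exact_mod_cast hle i v hi
        · positivity
      calc cp v = (1 / Real.log v) ^ (1:ℝ) := by
            unfold cp
            rw [if_pos hv, Real.rpow_one]
        _ ≤ (1 / Real.log v) ^ (∑ i ∈ F v, 1 / (bb κ i.1 : ℝ)) := by
            apply Real.rpow_le_rpow_of_exponent_ge h20 _ (hsum v)
            rw [div_le_one (by linarith)]
            exact hlv.le
        _ = ∏ i ∈ F v, (1 / Real.log v) ^ (1 / (bb κ i.1 : ℝ)) := by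
            rw [Real.rpow_sum_of_pos h20]
        _ ≤ ∏ i ∈ F v, a i := prod_le_prod (fun i _ => by positivity) h1
    · have : cp v = 0 := by
        unfold cp
        rw [if_neg hv]
      rw [this]
      exact prod_nonneg fun i _ => (ha i).le
  -- edges of one colour are disjoint
  have hdis : ∀ i j : ι, i.1 < j.1 → c i = c j → Disjoint (e i) (e j) := by
    intro i j hij hcc
    rw [Finset.disjoint_left]
    intro v hv hv'
    have hvi : v ∈ ch i.1 (κ i.1 / 2 + 1) := hv
    have hvj : v ∈ ch j.1 (κ j.1 / 2 + 1) := hv'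
    rw [mem_ch] at hvi hvj
    obtain ⟨s, hs, hs'⟩ := hvi
    obtain ⟨t, ht, ht'⟩ := hvj
    have hts : t < s := by
      by_contra hc
      push Not at hc
      have h1 : 2 ^ s * (i.1 + 1) < 2 ^ t * (j.1 + 1) :=
        calc 2 ^ s * (i.1 + 1) < 2 ^ s * (j.1 + 1) :=
              Nat.mul_lt_mul_of_pos_left (by omega) (Nat.two_pow_pos s)
          _ ≤ 2 ^ t * (j.1 + 1) := Nat.mul_le_mul_right _ (Nat.pow_le_pow_right (by norm_num) hc)
      omega
    have hji : j.1 ∈ ch i.1 (κ i.1 / 2 + 1) := by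
      rw [mem_ch]
      refine ⟨s - t, by omega, ?_⟩
      apply Nat.eq_of_mul_eq_mul_left (Nat.two_pow_pos t)
      rw [← ht', hs', ← mul_assoc, ← pow_add, Nat.add_sub_cancel' hts.le]
    have hmem : i.1 ∈ D j.1 := by
      rw [mem_filter, mem_range]
      exact ⟨hij, i.2, hji⟩
    exact (col_spec' D j.1).2 _ hmem hij hcc.symm
  obtain ⟨Ω, mΩ, P, hP, E, hEm, hEi, hEae⟩ := glue4 (k := k) (fun _ => Nat.succ_pos _) e he ha ha2
    c F hF cp_nonneg hp1 (α := fun n : ℕ => Real.exp (-(n : ℝ))) (fun _ => (Real.exp_pos _).le)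
    Real.summable_exp_neg_nat
  refine ⟨Ω, mΩ, P, hP, E, ⟨hEm, fun T hT => ?_⟩, ?_⟩
  · rw [hEi T]
    · congr 1
      refine prod_congr rfl fun n hn => ?_
      unfold cp
      rw [if_pos (hT n hn).1]
    · have hkey : ∀ i j : ι, i.1 < j.1 → e i ⊆ T → e j ⊆ T → c i ≠ c j := by
        intro i j hij h1 h2 hcc
        have h3 := card_le_card (union_subset h1 h2)
        rw [card_union_of_disjoint (hdis i j hij hcc), he, he] at h3
        have h4 := (hT i.1 (h1 (self_mem_ch (Nat.succ_pos _)))).2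
        have h5 := hmono hij.le
        simp only [k] at h3
        omega
      intro i j hij h1 h2
      rcases lt_or_gt_of_ne (fun h => hij (Subtype.ext h)) with h3 | h3
      · exact hkey i j h3 h1 h2
      · exact (hkey j i h3 h2 h1).symm
  · filter_upwards [hEae] with ω hω
    obtain ⟨u, hu0, hufin, hu⟩ := hω
    obtain ⟨δ, hδ0, hδ⟩ : ∃ δ : ℝ, 0 < δ ∧ ∀ r ∈ hufin.toFinset, δ ≤ u r := by
      rcases hufin.toFinset.eq_empty_or_nonempty with h0 | h0
      · exact ⟨1, one_pos, fun r hr => by rw [h0] at hr; simp at hr⟩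
      · refine ⟨hufin.toFinset.inf' h0 u, ?_, fun r hr => inf'_le u hr⟩
        rw [lt_inf'_iff]
        intro r _
        exact hu0 _
    have hlim : Tendsto (fun n => Real.exp (-(bb κ n : ℝ))) atTop (𝓝 0) := by
      apply Real.tendsto_exp_neg_atTop_nhds_zero.comp
      exact tendsto_natCast_atTop_atTop.comp (bb_tendsto h hκ)
    filter_upwards [hlim.eventually_lt_const hδ0, eventually_ge_atTop N₀] with n h1 h2 h4 h5 h6
    have hact : Act κ n := ⟨by omega, h4, h5⟩
    have h7 := hu ⟨n, h2, hact⟩ (by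
      intro v hv
      have hv' : v ∈ ch n (κ n / 2 + 1) := hv
      rw [mem_ch] at hv'
      obtain ⟨i, hi, hvi⟩ := hv'
      have h8 := h6 i hi
      have h9 : v = 2 ^ i * (n + 1) - 1 := by omega
      rw [h9]
      exact h8)
    have h8 := hae ⟨n, h2, hact⟩
    have h9 := hcle ⟨n, h2, hact⟩
    by_cases hex : c ⟨n, h2, hact⟩ ∈ hufin.toFinset
    · have := hδ _ hex
      linarith
    · rw [Set.Finite.mem_toFinset, Set.mem_ofPred_eq, not_lt] at hex
      have h10 : Real.exp (-(bb κ n : ℝ)) ≤ Real.exp (-((c ⟨n, h2, hact⟩ : ℕ) : ℝ)) := by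
        apply Real.exp_le_exp.2
        have : ((c ⟨n, h2, hact⟩ : ℕ) : ℝ) ≤ bb κ n := by exact_mod_cast h9
        linarith
      linarith

end Pool.Agent.H67.CC
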