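import Pool.Agent.H67.CC.Stm

set_option autoImplicit false

namespace Pool.Agent.H67.CC

open Finset MeasureTheory Filter Topology

theorem Ch.mono' {A : Set ℕ} {n k K : ℕ} (h : Ch A n k) (hK : K ≤ k) : Ch A n K :=
  fun i hi => h i (hi.trans_le hK)

theorem Ch.shift {A : Set ℕ} {n k : ℕ} (h : Ch A n k) (j : ℕ) :
    Ch A (2 ^ j * (n + 1) - 1) (k - j) := by
  intro i hi
  have h0 : 1 ≤ 2 ^ j * (n + 1) := Nat.one_le_iff_ne_zero.2 (by positivity)
  have h1 : 2 ^ j * (n + 1) - 1 + 1 = 2 ^ j * (n + 1) := by omega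
  rw [h1, ← mul_assoc, ← pow_add]
  exact h (i + j) (by omega)

theorem law_upper (h : S_GG) {κ : ℕ → ℕ} {A : Set ℕ}
    (hk : ∀ ε : ℝ, 0 < ε → ∀ᶠ n : ℕ in atTop, (2 - ε) * gg n ≤ κ n) (hF : FirstP κ A)
    {ε : ℝ} (hε : 0 < ε) : ∀ᶠ N : ℕ in atTop, BddAbove {k | ∃ n ≤ N, Ch A n k} ∧
      (longest A N : ℝ) ≤ (1 + ε) * gg N := by
  obtain ⟨h1, h2, h3, h4, h5⟩ := h
  set ε₁ : ℝ := min (1 / 4) (ε / 2) with hε1
  have hp : 0 < ε₁ := lt_min (by norm_num) (by positivity)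
  have hq : ε₁ ≤ 1 / 4 := min_le_left _ _
  have hr : 2 * ε₁ ≤ ε := by
    have := min_le_right (1 / 4 : ℝ) (ε / 2)
    rw [← hε1] at this
    linarith
  obtain ⟨n₀, hn₀⟩ := eventually_atTop.1 ((hF ε₁ hp).and ((hk (1 / 2) (by norm_num)).and
    ((h2.eventually_ge_atTop 4).and (eventually_ge_atTop 16))))
  have key : ∀ n, n₀ ≤ n → ∀ k, Ch A n k → (k : ℝ) ≤ (1 + ε₁) * gg n + 1 := by
    intro n hn k hc
    obtain ⟨a1, a2, a3, a4⟩ := hn₀ n hn
    have hnn : 0 ≤ (1 + ε₁) * gg n := by positivity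
    have b1 := Nat.ceil_lt_add_one hnn
    have b2 : ⌈(1 + ε₁) * gg n⌉₊ ≤ κ n := by
      have : (⌈(1 + ε₁) * gg n⌉₊ : ℝ) ≤ κ n := by
        refine b1.le.trans (le_trans ?_ a2)
        nlinarith
      exact_mod_cast this
    have b3 := a1 b2
    have b4 : k < ⌈(1 + ε₁) * gg n⌉₊ := by
      by_contra hcon
      push Not at hcon
      exact b3 (hc.mono' hcon)
    have b5 : (k : ℝ) < ⌈(1 + ε₁) * gg n⌉₊ := by exact_mod_cast b4
    linarith
  set C : ℝ := n₀ + ((1 + ε₁) * gg (2 ^ n₀ * (n₀ + 1)) + 1) with hC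
  have key2 : ∀ N, n₀ ≤ N → ∀ n ≤ N, ∀ k, Ch A n k →
      (k : ℝ) ≤ max C ((1 + ε₁) * gg N + 1) := by
    intro N hN n hn k hc
    rcases le_or_gt n₀ n with hcase | hcase
    · refine (key n hcase k hc).trans (le_trans ?_ (le_max_right _ _))
      have := h1 n N ((hn₀ n hcase).2.2.2) hn
      have := mul_le_mul_of_nonneg_left this (by positivity : (0 : ℝ) ≤ 1 + ε₁)
      linarith
    · refine le_trans ?_ (le_max_left _ _)
      have hpow : n₀ < 2 ^ n₀ := Nat.lt_two_pow_self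
      have hn'1 : n₀ ≤ 2 ^ n₀ * (n + 1) - 1 := by
        have : 2 ^ n₀ * 1 ≤ 2 ^ n₀ * (n + 1) := Nat.mul_le_mul_left _ (by omega)
        omega
      have hn'2 : 2 ^ n₀ * (n + 1) - 1 ≤ 2 ^ n₀ * (n₀ + 1) := by
        have : 2 ^ n₀ * (n + 1) ≤ 2 ^ n₀ * (n₀ + 1) := Nat.mul_le_mul_left _ (by omega)
        omega
      have a1 := key _ hn'1 _ (hc.shift n₀)
      have a2 := h1 _ _ ((hn₀ _ hn'1).2.2.2) hn'2
      have a3 : (k : ℝ) ≤ n₀ + ((k - n₀ : ℕ) : ℝ) := by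
        have : k ≤ n₀ + (k - n₀) := by omega
        exact_mod_cast this
      have a4 := mul_le_mul_of_nonneg_left a2 (by positivity : (0 : ℝ) ≤ 1 + ε₁)
      rw [hC]
      linarith
  filter_upwards [eventually_ge_atTop n₀, h2.eventually_ge_atTop C,
    h2.eventually_ge_atTop (1 / ε₁)] with N b1 b2 b3
  obtain ⟨-, -, hg4, -⟩ := hn₀ N b1
  have hnn : 0 ≤ max C ((1 + ε₁) * gg N + 1) := by
    refine le_trans ?_ (le_max_right _ _)
    positivity
  have hub : ⌊max C ((1 + ε₁) * gg N + 1)⌋₊ ∈ upperBounds {k | ∃ n ≤ N, Ch A n k} := by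
    rintro k ⟨n, hn, hc⟩
    exact Nat.le_floor (key2 N b1 n hn k hc)
  refine ⟨⟨_, hub⟩, ?_⟩
  have c1 : longest A N ≤ ⌊max C ((1 + ε₁) * gg N + 1)⌋₊ := csSup_le' hub
  have c2 : (longest A N : ℝ) ≤ max C ((1 + ε₁) * gg N + 1) :=
    (Nat.cast_le.2 c1).trans (Nat.floor_le hnn)
  refine c2.trans (max_le ?_ ?_)
  · nlinarith
  · have : 1 ≤ ε₁ * gg N := by
      rw [div_le_iff₀ hp] at b3
      linarith
    nlinarith

theorem law_lower (h : S_GG) {κ : ℕ → ℕ} {A : Set ℕ}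
    (hk : ∀ ε : ℝ, 0 < ε → ∀ᶠ n : ℕ in atTop, (2 - ε) * gg n ≤ κ n) (hLo : LowerP κ A)
    (hF : FirstP κ A) {ε : ℝ} (hε : 0 < ε) (hε1 : ε ≤ 1) :
    ∀ᶠ N : ℕ in atTop, (1 - ε) * gg N ≤ (longest A N : ℝ) := by
  have hup := law_upper h hk hF (one_pos)
  obtain ⟨h1, h2, h3, h4, h5⟩ := h
  set δ : ℝ := ε / 4 with hδ
  have hδp : 0 < δ := by positivity
  have ht : Tendsto (fun N : ℕ => N / 4) atTop atTop :=
    Nat.tendsto_div_const_atTop (by norm_num)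
  have h4' := h4 (1 + δ) (by linarith)
  filter_upwards [hup, ht.eventually (hLo δ hδp), ht.eventually (hk δ hδp),
    ht.eventually (h2.eventually_ge_atTop 0), ht.eventually h4',
    ((tendsto_add_atTop_nat 1).comp ht).eventually h4', ht.eventually (eventually_ge_atTop 16),
    eventually_ge_atTop 16] with N a1 a2 a3 a4 a5 a6 a7 a8
  obtain ⟨n, k, hn1, hn2, hc, hkk⟩ := a2
  set M := N / 4 with hM
  have e1 : 4 * M ≤ N := by omega
  have e2 : N ≤ 4 * (M + 1) := by omega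
  have e3 : M + 1 ≤ 4 * M := by omega
  have b1 : gg N ≤ gg (4 * (M + 1)) := h1 _ _ a8 e2
  have b2 : gg (4 * (M + 1)) ≤ (1 + δ) * gg (M + 1) := a6
  have b3 : gg (M + 1) ≤ gg (4 * M) := h1 _ _ (by omega) e3
  have b4 : gg N ≤ (1 + δ) * ((1 + δ) * gg M) := by
    refine b1.trans (b2.trans ?_)
    exact mul_le_mul_of_nonneg_left (b3.trans a5) (by positivity)
  have b5 : (1 - δ) * gg M ≤ mm κ M := by
    unfold mm
    refine le_min ?_ ?_
    · nlinarith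
    · nlinarith
  have b6 : (1 - δ) * ((1 - δ) * gg M) ≤ k := by
    refine le_trans ?_ hkk
    exact mul_le_mul_of_nonneg_left b5 (by rw [hδ]; linarith)
  have b7 : k ≤ longest A N := le_csSup a1.1 ⟨n, hn2.trans e1, hc⟩
  have b8 : (k : ℝ) ≤ longest A N := by exact_mod_cast b7
  refine le_trans ?_ (b6.trans b8)
  have c1 : (1 - ε) * gg N ≤ (1 - ε) * ((1 + δ) * ((1 + δ) * gg M)) :=
    mul_le_mul_of_nonneg_left b4 (by linarith)
  refine c1.trans ?_
  have c2 : (1 - ε) * (1 + δ) * (1 + δ) ≤ (1 - δ) * (1 - δ) := by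
    have : ε = 4 * δ := by rw [hδ]; ring
    rw [this]
    nlinarith [mul_pos hδp hδp, mul_pos (mul_pos hδp hδp) hδp]
  have := mul_le_mul_of_nonneg_right c2 a4
  linarith

theorem s_law (h : S_GG) : S_LAW := by
  intro κ A hκ hk hLo hF
  have hpos : ∀ᶠ N : ℕ in atTop, 0 < gg N := h.2.1.eventually_gt_atTop 0
  rw [tendsto_order]
  constructor
  · intro a ha
    have hε : 0 < min 1 ((1 - a) / 2) := lt_min one_pos (by linarith)
    filter_upwards [law_lower h hk hLo hF hε (min_le_left _ _), hpos] with N h1 h2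
    rw [lt_div_iff₀ h2]
    have : min 1 ((1 - a) / 2) ≤ (1 - a) / 2 := min_le_right _ _
    nlinarith
  · intro b hb
    have hε : 0 < (b - 1) / 2 := by linarith
    filter_upwards [law_upper h hk hF hε, hpos] with N h1 h2
    rw [div_lt_iff₀ h2]
    have := h1.2
    nlinarith

end Pool.Agent.H67.CC
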