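import Pool.Agent.H67.CC.Stm

/-! # The second moment lower bound for the longest Cunningham chain in every model -/

set_option autoImplicit false

namespace Pool.Agent.H67.CC

open Finset MeasureTheory Filter Topology
open Q198.CI

namespace LOWh

/-- Chebyshev's inequality for pairwise independent events -/
lemma cheb {Ω : Type*} [MeasurableSpace Ω] (P : Measure Ω) [IsProbabilityMeasure P]
    {F : ℕ → Set Ω} (hF : ∀ n, MeasurableSet (F n)) (I : Finset ℕ) (m : ℕ → ℝ)
    (hm : ∀ n ∈ I, P.real (F n) = m n)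
    (hind : ∀ n ∈ I, ∀ n' ∈ I, n ≠ n' → P.real (F n ∩ F n') = m n * m n') :
    P.real (⋂ n ∈ I, (F n)ᶜ) * (∑ n ∈ I, m n) ^ 2 ≤ ∑ n ∈ I, m n := by
  classical
  have h2 : ∀ s : Set Ω, MeasurableSet s → Integrable (s.indicator (fun _ => (1:ℝ))) P :=
    fun s hs => (integrable_const (1:ℝ)).indicator hs
  have h3 : ∀ s : Set Ω, MeasurableSet s → ∫ ω, s.indicator (fun _ => (1:ℝ)) ω ∂P = P.real s := by
    intro s hs
    rw [integral_indicator_const _ hs]
    simp
  have hfun : ∀ n n' : ℕ, (fun ω => ((F n).indicator (fun _ => (1:ℝ)) ω - m n) *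
      ((F n').indicator (fun _ => (1:ℝ)) ω - m n')) = fun ω =>
        (F n ∩ F n').indicator (fun _ => (1:ℝ)) ω - m n' * (F n).indicator (fun _ => (1:ℝ)) ω -
        m n * (F n').indicator (fun _ => (1:ℝ)) ω + m n * m n' := by
    intro n n'
    funext ω
    by_cases h : ω ∈ F n <;> by_cases h' : ω ∈ F n' <;> simp [h, h'] <;> ring
  have hint : ∀ n n' : ℕ, Integrable (fun ω => ((F n).indicator (fun _ => (1:ℝ)) ω - m n) *
      ((F n').indicator (fun _ => (1:ℝ)) ω - m n')) P := by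
    intro n n'
    rw [hfun]
    exact (((h2 _ ((hF n).inter (hF n'))).sub ((h2 _ (hF n)).const_mul _)).sub
      ((h2 _ (hF n')).const_mul _)).add (integrable_const _)
  have hval : ∀ n ∈ I, ∀ n' ∈ I, ∫ ω, ((F n).indicator (fun _ => (1:ℝ)) ω - m n) *
      ((F n').indicator (fun _ => (1:ℝ)) ω - m n') ∂P = P.real (F n ∩ F n') - m n * m n' := by
    intro n hn n' hn'
    have i1 : Integrable (fun ω => (F n ∩ F n').indicator (fun _ => (1:ℝ)) ω) P :=
      h2 _ ((hF n).inter (hF n'))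
    have i2 : Integrable (fun ω => m n' * (F n).indicator (fun _ => (1:ℝ)) ω) P :=
      (h2 _ (hF n)).const_mul _
    have i3 : Integrable (fun ω => m n * (F n').indicator (fun _ => (1:ℝ)) ω) P :=
      (h2 _ (hF n')).const_mul _
    have i12 : Integrable (fun ω => (F n ∩ F n').indicator (fun _ => (1:ℝ)) ω -
      m n' * (F n).indicator (fun _ => (1:ℝ)) ω) P := i1.sub i2
    have i123 : Integrable (fun ω => (F n ∩ F n').indicator (fun _ => (1:ℝ)) ω -
      m n' * (F n).indicator (fun _ => (1:ℝ)) ω - m n * (F n').indicator (fun _ => (1:ℝ)) ω) P :=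
      i12.sub i3
    rw [hfun, integral_add i123 (integrable_const _), integral_sub i12 i3, integral_sub i1 i2,
      integral_const_mul, integral_const_mul, h3 _ (hF n),
      h3 _ (hF n'), h3 _ ((hF n).inter (hF n')), hm n hn, hm n' hn', integral_const]
    simp
    ring
  have hexp : ∀ ω, (∑ n ∈ I, ((F n).indicator (fun _ => (1:ℝ)) ω - m n)) ^ 2 =
      ∑ n ∈ I, ∑ n' ∈ I, ((F n).indicator (fun _ => (1:ℝ)) ω - m n) *
      ((F n').indicator (fun _ => (1:ℝ)) ω - m n') := by
    intro ω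
    rw [sq, sum_mul_sum]
  have hint2 : Integrable (fun ω => (∑ n ∈ I, ((F n).indicator (fun _ => (1:ℝ)) ω - m n)) ^ 2) P := by
    simp_rw [hexp]
    exact integrable_finsetSum _ fun n _ => integrable_finsetSum _ fun n' _ => hint n n'
  have hmnn : ∀ n ∈ I, 0 ≤ m n := fun n hn => by rw [← hm n hn]; exact measureReal_nonneg
  have hvar : ∫ ω, (∑ n ∈ I, ((F n).indicator (fun _ => (1:ℝ)) ω - m n)) ^ 2 ∂P ≤
      ∑ n ∈ I, m n := by
    simp_rw [hexp]
    rw [integral_finsetSum _ fun n _ => integrable_finsetSum _ fun n' _ => hint n n']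
    refine sum_le_sum fun n hn => ?_
    rw [integral_finsetSum _ fun n' _ => hint n n']
    calc ∑ n' ∈ I, ∫ ω, ((F n).indicator (fun _ => (1:ℝ)) ω - m n) *
          ((F n').indicator (fun _ => (1:ℝ)) ω - m n') ∂P
        = ∑ n' ∈ I, (if n' = n then m n - m n * m n else 0) := by
          refine sum_congr rfl fun n' hn' => ?_
          rw [hval n hn n' hn']
          split_ifs with h
          · subst h
            rw [Set.inter_self, hm n' hn]
          · rw [hind n hn n' hn' (Ne.symm h), sub_self]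
      _ = m n - m n * m n := by
          rw [sum_ite_eq' I n]
          rw [if_pos hn]
      _ ≤ m n := by nlinarith [hmnn n hn]
  have hBm : MeasurableSet (⋂ n ∈ I, (F n)ᶜ) := Finset.measurableSet_biInter _ fun n _ => (hF n).compl
  have hlow : P.real (⋂ n ∈ I, (F n)ᶜ) * (∑ n ∈ I, m n) ^ 2 ≤
      ∫ ω, (∑ n ∈ I, ((F n).indicator (fun _ => (1:ℝ)) ω - m n)) ^ 2 ∂P := by
    rw [← h3 _ hBm, ← integral_mul_const]
    refine integral_mono ((h2 _ hBm).mul_const _) hint2 fun ω => ?_
    show (⋂ n ∈ I, (F n)ᶜ).indicator (fun _ => (1:ℝ)) ω * (∑ n ∈ I, m n) ^ 2 ≤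
      (∑ n ∈ I, ((F n).indicator (fun _ => (1:ℝ)) ω - m n)) ^ 2
    by_cases hω : ω ∈ ⋂ n ∈ I, (F n)ᶜ
    · rw [Set.indicator_of_mem hω, one_mul]
      have h4 : ∑ n ∈ I, ((F n).indicator (fun _ => (1:ℝ)) ω - m n) = -∑ n ∈ I, m n := by
        rw [← sum_neg_distrib]
        refine sum_congr rfl fun n hn => ?_
        have h5 : ω ∉ F n := by
          rw [Set.mem_iInter₂] at hω
          exact hω n hn
        rw [Set.indicator_of_notMem h5, zero_sub]
      rw [h4, neg_sq]
    · rw [Set.indicator_of_notMem hω, zero_mul]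
      positivity
  exact hlow.trans hvar

/-- the points of a chain -/
def T (k n : ℕ) : Finset ℕ := (range k).image (fun i => 2 ^ i * (n + 1) - 1)

lemma T_inj (n : ℕ) : Function.Injective (fun i : ℕ => 2 ^ i * (n + 1) - 1) := by
  intro i j hij
  have hij' : 2 ^ i * (n + 1) - 1 = 2 ^ j * (n + 1) - 1 := hij
  have h1 : 0 < 2 ^ i * (n + 1) := by positivity
  have h2 : 0 < 2 ^ j * (n + 1) := by positivity
  have h3 : 2 ^ i * (n + 1) = 2 ^ j * (n + 1) := by omega
  exact Nat.pow_right_injective le_rfl (Nat.eq_of_mul_eq_mul_right (Nat.succ_pos n) h3)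

lemma T_card (k n : ℕ) : (T k n).card = k := by
  unfold T
  rw [card_image_of_injective _ (T_inj n), card_range]

lemma T_ge {k n v : ℕ} (hv : v ∈ T k n) : n ≤ v := by
  unfold T at hv
  rw [mem_image] at hv
  obtain ⟨i, _, rfl⟩ := hv
  have h1 : 1 ≤ 2 ^ i := Nat.one_le_two_pow
  have h2 : 1 * (n + 1) ≤ 2 ^ i * (n + 1) := Nat.mul_le_mul_right _ h1
  omega

lemma T_le {k n v : ℕ} (hv : v ∈ T k n) : v + 1 ≤ 2 ^ k * (n + 1) := by
  unfold T at hv
  rw [mem_image] at hv
  obtain ⟨i, hi, rfl⟩ := hv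
  rw [mem_range] at hi
  have h1 : 2 ^ i ≤ 2 ^ k := Nat.pow_le_pow_right (by norm_num) hi.le
  have h2 : 2 ^ i * (n + 1) ≤ 2 ^ k * (n + 1) := Nat.mul_le_mul_right _ h1
  have h3 : 0 < 2 ^ i * (n + 1) := by positivity
  omega

/-- in a dyadic interval different chains are disjoint -/
lemma T_disj {k N n n' : ℕ} (hn : N < n) (hn2 : n ≤ 2 * N) (hn' : N < n') (hn2' : n' ≤ 2 * N)
    (hne : n ≠ n') : Disjoint (T k n) (T k n') := by
  rw [Finset.disjoint_left]
  intro v hv hv'
  unfold T at hv hv'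
  rw [mem_image] at hv hv'
  obtain ⟨i, _, rfl⟩ := hv
  obtain ⟨j, _, hj⟩ := hv'
  have h1 : 0 < 2 ^ i * (n + 1) := by positivity
  have h2 : 0 < 2 ^ j * (n' + 1) := by positivity
  have h3 : 2 ^ i * (n + 1) = 2 ^ j * (n' + 1) := by omega
  rcases lt_trichotomy i j with h | h | h
  · obtain ⟨d, rfl⟩ := Nat.exists_eq_add_of_lt h
    have h4 : n + 1 = 2 ^ (d + 1) * (n' + 1) := by
      apply Nat.eq_of_mul_eq_mul_left (show 0 < 2 ^ i by positivity)
      rw [h3, show i + d + 1 = i + (d + 1) by ring, pow_add, mul_assoc]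
    have h5 : 2 ≤ 2 ^ (d + 1) := by
      calc 2 = 2 ^ 1 := by norm_num
        _ ≤ 2 ^ (d + 1) := Nat.pow_le_pow_right (by norm_num) (by omega)
    have h6 : 2 * (n' + 1) ≤ 2 ^ (d + 1) * (n' + 1) := Nat.mul_le_mul_right _ h5
    omega
  · subst h
    have := Nat.eq_of_mul_eq_mul_left (show 0 < 2 ^ i by positivity) h3
    omega
  · obtain ⟨d, rfl⟩ := Nat.exists_eq_add_of_lt h
    have h4 : n' + 1 = 2 ^ (d + 1) * (n + 1) := by
      apply Nat.eq_of_mul_eq_mul_left (show 0 < 2 ^ j by positivity)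
      rw [← h3, show j + d + 1 = j + (d + 1) by ring, pow_add, mul_assoc]
    have h5 : 2 ≤ 2 ^ (d + 1) := by
      calc 2 = 2 ^ 1 := by norm_num
        _ ≤ 2 ^ (d + 1) := Nat.pow_le_pow_right (by norm_num) (by omega)
    have h6 : 2 * (n + 1) ≤ 2 ^ (d + 1) * (n + 1) := Nat.mul_le_mul_right _ h5
    omega

lemma mem_inter_T {Ω : Type*} (E : ℕ → Set Ω) (k n : ℕ) (ω : Ω) :
    ω ∈ (⋂ v ∈ T k n, E v) ↔ Ch {n | ω ∈ E n} n k := by
  unfold T Ch
  simp only [Set.mem_iInter, mem_image, mem_range, Set.mem_ofPred_eq]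
  constructor
  · intro h i hi
    exact h _ ⟨i, hi, rfl⟩
  · rintro h v ⟨i, hi, rfl⟩
    exact h i hi

/-- the probability that there is no chain of length `k` with starting point in `(N, 2 N]` -/
lemma block {Ω : Type} [MeasurableSpace Ω] (P : Measure Ω) [IsProbabilityMeasure P] {κ : ℕ → ℕ}
    {E : ℕ → Set Ω} (hM : Model P κ E) (hκ : Monotone κ) {N k : ℕ} (hN : 3 ≤ N)
    (hk : 2 * k ≤ κ N) (hlog : ((k : ℝ) + 2) * Real.log 2 ≤ Real.log N) :
    P.real {ω | ∀ n ∈ Ioc N (2 * N), ¬ Ch {n | ω ∈ E n} n k} ≤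
      (2 * Real.log N) ^ k / N := by
  classical
  have hlN : 0 < Real.log N := Real.log_pos (by exact_mod_cast (by omega : 1 < N))
  have hNr : (0:ℝ) < N := by exact_mod_cast (by omega : 0 < N)
  set F : ℕ → Set Ω := fun n => ⋂ v ∈ T k n, E v with hF
  set m : ℕ → ℝ := fun n => ∏ v ∈ T k n, 1 / Real.log v with hm
  have hmeas : ∀ n, MeasurableSet (F n) := fun n =>
    Finset.measurableSet_biInter _ fun v _ => hM.meas v
  have hmem : ∀ n ∈ Ioc N (2 * N), ∀ v ∈ T k n, 3 ≤ v ∧ 2 * k ≤ κ v := by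
    intro n hn v hv
    rw [mem_Ioc] at hn
    have h1 := T_ge hv
    exact ⟨by omega, hk.trans (hκ (by omega))⟩
  have hprob : ∀ n ∈ Ioc N (2 * N), P.real (F n) = m n := by
    intro n hn
    refine hM.real fun v hv => ?_
    have := hmem n hn v hv
    rw [T_card]
    exact ⟨this.1, by omega⟩
  have hind : ∀ n ∈ Ioc N (2 * N), ∀ n' ∈ Ioc N (2 * N), n ≠ n' →
      P.real (F n ∩ F n') = m n * m n' := by
    intro n hn n' hn' hne
    have hn1 := mem_Ioc.1 hn
    have hn1' := mem_Ioc.1 hn'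
    have hd := T_disj (k := k) hn1.1 hn1.2 hn1'.1 hn1'.2 hne
    have h1 : F n ∩ F n' = ⋂ v ∈ T k n ∪ T k n', E v := by
      ext ω
      simp only [hF, Set.mem_inter_iff, Set.mem_iInter, mem_union]
      constructor
      · rintro ⟨h1, h2⟩ v (hv | hv)
        · exact h1 v hv
        · exact h2 v hv
      · intro h
        exact ⟨fun v hv => h v (Or.inl hv), fun v hv => h v (Or.inr hv)⟩
    rw [h1, hM.real, prod_union hd]
    intro v hv
    rw [card_union_of_disjoint hd, T_card, T_card]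
    rcases mem_union.1 hv with h | h
    · have := hmem n hn v h
      exact ⟨this.1, by omega⟩
    · have := hmem n' hn' v h
      exact ⟨this.1, by omega⟩
  have hch := cheb P hmeas (Ioc N (2 * N)) m hprob hind
  have hset : {ω | ∀ n ∈ Ioc N (2 * N), ¬ Ch {n | ω ∈ E n} n k} =
      ⋂ n ∈ Ioc N (2 * N), (F n)ᶜ := by
    ext ω
    simp only [Set.mem_ofPred_eq, Set.mem_iInter, Set.mem_compl_iff]
    constructor
    · intro h n hn hω
      exact h n hn ((mem_inter_T E k n ω).1 hω)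
    · intro h n hn hω
      exact h n hn ((mem_inter_T E k n ω).2 hω)
  rw [hset]
  -- lower bound for the mean
  have hmlow : ∀ n ∈ Ioc N (2 * N), (1 / (2 * Real.log N)) ^ k ≤ m n := by
    intro n hn
    have hn1 := mem_Ioc.1 hn
    calc (1 / (2 * Real.log N)) ^ k = ∏ _v ∈ T k n, 1 / (2 * Real.log N) := by
          rw [prod_const, T_card]
      _ ≤ m n := by
          refine prod_le_prod (fun _ _ => by positivity) fun v hv => ?_
          have h1 := T_ge hv
          have h2 := T_le hv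
          have h3 : v ≤ 2 ^ k * (4 * N) := by
            have h4 : 2 ^ k * (n + 1) ≤ 2 ^ k * (4 * N) := Nat.mul_le_mul_left _ (by omega)
            omega
          have hv0 : (1:ℝ) < v := by exact_mod_cast (by omega : 1 < v)
          have hlv : 0 < Real.log v := Real.log_pos hv0
          apply one_div_le_one_div_of_le hlv
          calc Real.log v ≤ Real.log ((2:ℝ) ^ k * (4 * N)) := by
                apply Real.log_le_log (by linarith)
                exact_mod_cast h3
            _ = (k + 2) * Real.log 2 + Real.log N := by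
                rw [Real.log_mul (by positivity) (by positivity), Real.log_pow,
                  Real.log_mul (by norm_num) hNr.ne', show (4:ℝ) = 2 ^ 2 by norm_num, Real.log_pow]
                push_cast
                ring
            _ ≤ 2 * Real.log N := by linarith
  set M : ℝ := ∑ n ∈ Ioc N (2 * N), m n with hMdef
  have hMlow : N * (1 / (2 * Real.log N)) ^ k ≤ M := by
    have h1 := card_nsmul_le_sum (Ioc N (2 * N)) m _ hmlow
    rw [Nat.card_Ioc, nsmul_eq_mul, show 2 * N - N = N by omega] at h1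
    exact h1
  have hM0 : 0 < N * (1 / (2 * Real.log N)) ^ k := by positivity
  have hMpos : 0 < M := hM0.trans_le hMlow
  have h1 : P.real (⋂ n ∈ Ioc N (2 * N), (F n)ᶜ) ≤ 1 / M := by
    rw [le_div_iff₀ hMpos]
    have h2 : P.real (⋂ n ∈ Ioc N (2 * N), (F n)ᶜ) * M * M ≤ 1 * M := by
      calc P.real (⋂ n ∈ Ioc N (2 * N), (F n)ᶜ) * M * M =
            P.real (⋂ n ∈ Ioc N (2 * N), (F n)ᶜ) * M ^ 2 := by ring
        _ ≤ M := hch
        _ = 1 * M := (one_mul M).symm
    exact le_of_mul_le_mul_right h2 hMpos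
  refine h1.trans ((one_div_le_one_div_of_le hM0 hMlow).trans (le_of_eq ?_))
  rw [one_div_pow]
  field_simp

lemma log_gt {N : ℕ} (hN : 16 ≤ N) : 2 < Real.log N := by
  have h1 : (2 : ℝ) < Real.log 16 := by
    rw [show (16 : ℝ) = 2 ^ 4 by norm_num, Real.log_pow]
    have := Real.log_two_gt_d9
    push_cast
    linarith
  exact h1.trans_le (Real.log_le_log (by norm_num) (by exact_mod_cast hN))

lemma loglog_pos {N : ℕ} (hN : 16 ≤ N) : 0 < Real.log (Real.log N) :=
  Real.log_pos (by have := log_gt hN; linarith)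

lemma gg_nonneg {N : ℕ} (hN : 16 ≤ N) : 0 ≤ gg N := by
  unfold gg
  have h1 := log_gt hN
  have h2 := loglog_pos hN
  positivity

lemma mm_nonneg (κ : ℕ → ℕ) {N : ℕ} (hN : 16 ≤ N) : 0 ≤ mm κ N :=
  le_min (by positivity) (gg_nonneg hN)

lemma pow_bound {N k : ℕ} {ε : ℝ} (hN : 16 ≤ N) (he : 0 < ε) (he1 : ε ≤ 1)
    (hk : (k : ℝ) ≤ (1 - ε / 2) * gg N) (hg : gg N ≤ ε / 4 * Real.log N) :
    (2 * Real.log N) ^ k / N ≤ Real.exp (-(ε / 4) * Real.log N) := by
  have h1 := log_gt hN
  have h2 := loglog_pos hN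
  have hNr : (0:ℝ) < N := by exact_mod_cast (by omega : 0 < N)
  have hl2 : Real.log 2 ≤ 1 := by
    have := Real.log_two_lt_d9
    linarith
  have hl20 : 0 < Real.log 2 := Real.log_pos (by norm_num)
  have hgl : gg N * Real.log (Real.log N) = Real.log N := by
    unfold gg
    field_simp
  have hg0 := gg_nonneg hN
  have h3 : (2 * Real.log N) ^ k = Real.exp (k * (Real.log 2 + Real.log (Real.log N))) := by
    rw [← Real.log_mul (by norm_num) (by linarith), ← Real.rpow_natCast,
      Real.rpow_def_of_pos (by linarith)]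
    congr 1
    ring
  have h4 : (k : ℝ) * (Real.log 2 + Real.log (Real.log N)) ≤ (1 - ε / 4) * Real.log N := by
    calc (k : ℝ) * (Real.log 2 + Real.log (Real.log N))
        ≤ ((1 - ε / 2) * gg N) * (Real.log 2 + Real.log (Real.log N)) :=
          mul_le_mul_of_nonneg_right hk (by linarith)
      _ = (1 - ε / 2) * (gg N * Real.log 2 + gg N * Real.log (Real.log N)) := by ring
      _ ≤ (1 - ε / 2) * (ε / 4 * Real.log N + Real.log N) := by
          refine mul_le_mul_of_nonneg_left ?_ (by linarith)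
          rw [hgl]
          nlinarith
      _ ≤ (1 - ε / 4) * Real.log N := by nlinarith [mul_pos he he]
  have h5 : (N : ℝ) = Real.exp (Real.log N) := (Real.exp_log hNr).symm
  rw [h3, div_le_iff₀ hNr]
  calc Real.exp (k * (Real.log 2 + Real.log (Real.log N))) ≤ Real.exp ((1 - ε / 4) * Real.log N) :=
        Real.exp_le_exp.2 h4
    _ = Real.exp (-(ε / 4) * Real.log N) * N := by
        conv_rhs => rw [h5]
        rw [← Real.exp_add, Real.log_exp]
        congr 1
        ring

end LOWh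

open LOWh in
/-- the lower bound in every model -/
theorem s_low (h : S_GG) : S_LOW := by
  obtain ⟨hmono, htop, hlog, -, -⟩ := h
  intro Ω _ P _ κ E hM hκ hκt
  have hκr : Tendsto (fun n => (κ n : ℝ) / 2) atTop atTop :=
    (tendsto_natCast_atTop_atTop.comp hκt).atTop_div_const (by norm_num)
  have hmm : Tendsto (mm κ) atTop atTop := by
    rw [tendsto_atTop]
    intro b
    filter_upwards [tendsto_atTop.1 hκr b, tendsto_atTop.1 htop b] with n h1 h2
    exact le_min h1 h2
  have key : ∀ r : ℕ, ∀ᵐ ω ∂P, ∀ᶠ j : ℕ in atTop, ∃ n ∈ Ioc (2 ^ j) (2 * 2 ^ j),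
      Ch {n | ω ∈ E n} n ⌈(1 - 1 / ((r : ℝ) + 1)) * mm κ (2 ^ j)⌉₊ := by
    intro r
    obtain ⟨ε, hε⟩ : ∃ ε : ℝ, ε = 1 / ((r : ℝ) + 1) := ⟨_, rfl⟩
    rw [← hε]
    have he : 0 < ε := by rw [hε]; positivity
    have he1 : ε ≤ 1 := by
      rw [hε, div_le_one (by positivity)]
      have : (0:ℝ) ≤ r := Nat.cast_nonneg _
      linarith
    set s : ℕ → Set Ω := fun j => {ω | ∀ n ∈ Ioc (2 ^ j) (2 * 2 ^ j),
      ¬ Ch {n | ω ∈ E n} n ⌈(1 - ε) * mm κ (2 ^ j)⌉₊} with hs
    have hev : ∀ᶠ N : ℕ in atTop, P.real {ω | ∀ n ∈ Ioc N (2 * N),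
        ¬ Ch {n | ω ∈ E n} n ⌈(1 - ε) * mm κ N⌉₊} ≤ Real.exp (-(ε / 4) * Real.log N) := by
      filter_upwards [eventually_ge_atTop 16, tendsto_atTop.1 htop (2 / ε),
        tendsto_atTop.1 hmm (1 / ε), hlog (ε / 4) (by positivity),
        (Real.tendsto_log_atTop.comp tendsto_natCast_atTop_atTop).eventually_ge_atTop 8] with
        N hN h1 h2 h3 h4
      have h4' : 8 ≤ Real.log N := h4
      have hg1 : 2 ≤ ε * gg N := by
        rw [div_le_iff₀ he] at h1
        linarith
      have hm1 : 1 ≤ ε * mm κ N := by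
        rw [div_le_iff₀ he] at h2
        linarith
      have hm0 := mm_nonneg κ hN
      have hmk : mm κ N ≤ (κ N : ℝ) / 2 := min_le_left _ _
      have hmg : mm κ N ≤ gg N := min_le_right _ _
      have hkc : (⌈(1 - ε) * mm κ N⌉₊ : ℝ) ≤ (1 - ε) * mm κ N + 1 :=
        (Nat.ceil_lt_add_one (mul_nonneg (by linarith) hm0)).le
      have hk1 : (⌈(1 - ε) * mm κ N⌉₊ : ℝ) ≤ mm κ N := by linarith
      have hk2 : (⌈(1 - ε) * mm κ N⌉₊ : ℝ) ≤ (1 - ε / 2) * gg N := by
        have : (1 - ε) * mm κ N ≤ (1 - ε) * gg N := mul_le_mul_of_nonneg_left hmg (by linarith)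
        linarith
      have hk3 : 2 * ⌈(1 - ε) * mm κ N⌉₊ ≤ κ N := by
        have : (2:ℝ) * (⌈(1 - ε) * mm κ N⌉₊ : ℝ) ≤ κ N := by linarith
        exact_mod_cast this
      have hl2 : Real.log 2 ≤ 1 := by
        have := Real.log_two_lt_d9
        linarith
      have hl20 : 0 < Real.log 2 := Real.log_pos (by norm_num)
      have hk4 : ((⌈(1 - ε) * mm κ N⌉₊ : ℝ) + 2) * Real.log 2 ≤ Real.log N := by
        have h5 : (⌈(1 - ε) * mm κ N⌉₊ : ℝ) ≤ 1 / 4 * Real.log N := by
          have : ε / 4 * Real.log N ≤ 1 / 4 * Real.log N :=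
            mul_le_mul_of_nonneg_right (by linarith) (by linarith)
          linarith
        have h6 : (0:ℝ) ≤ (⌈(1 - ε) * mm κ N⌉₊ : ℝ) := Nat.cast_nonneg _
        calc ((⌈(1 - ε) * mm κ N⌉₊ : ℝ) + 2) * Real.log 2 ≤
              ((⌈(1 - ε) * mm κ N⌉₊ : ℝ) + 2) * 1 := mul_le_mul_of_nonneg_left hl2 (by linarith)
          _ ≤ Real.log N := by linarith
      exact (block P hM hκ (by omega) hk3 hk4).trans (pow_bound hN he he1 hk2 h3)
    have hsum : Summable fun j => P.real (s j) := by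
      set q : ℝ := Real.exp (-(ε / 4) * Real.log 2) with hq
      have hq0 : 0 ≤ q := (Real.exp_pos _).le
      have hq1 : q < 1 := by
        rw [hq, Real.exp_lt_one_iff]
        have : 0 < Real.log 2 := Real.log_pos (by norm_num)
        nlinarith
      refine Summable.of_norm_bounded_eventually_nat (summable_geometric_of_lt_one hq0 hq1) ?_
      have h1 := (tendsto_pow_atTop_atTop_of_one_lt (show 1 < 2 by norm_num)).eventually hev
      filter_upwards [h1] with j hj
      rw [Real.norm_of_nonneg measureReal_nonneg]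
      refine hj.trans (le_of_eq ?_)
      rw [hq, ← Real.exp_nat_mul]
      push_cast
      rw [Real.log_pow]
      congr 1
      ring
    have hne : ∑' j, P (s j) ≠ ⊤ := by
      have h1 : ∀ j, P (s j) = ENNReal.ofReal (P.real (s j)) := fun j =>
        (ofReal_measureReal).symm
      simp_rw [h1]
      exact hsum.tsum_ofReal_ne_top
    filter_upwards [ae_eventually_notMem hne] with ω hω
    filter_upwards [hω] with j hj
    simp only [hs, Set.mem_ofPred_eq] at hj
    push Not at hj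
    exact hj
  filter_upwards [ae_all_iff.2 key] with ω hω
  intro ε he
  obtain ⟨r, hr⟩ := exists_nat_one_div_lt he
  obtain ⟨J, hJ⟩ := eventually_atTop.1 (hω r)
  filter_upwards [eventually_ge_atTop 16, eventually_ge_atTop (2 ^ J)] with N hN hNJ
  have h1 : N ≤ 2 ^ Nat.clog 2 N := Nat.le_pow_clog (by norm_num) N
  have h2 : 2 ^ Nat.clog 2 N < 2 * N := by
    have h3 := Nat.pow_pred_clog_lt_self (b := 2) (by norm_num) (show 1 < N by omega)
    have h4 : 0 < Nat.clog 2 N := Nat.clog_pos (by norm_num) (by omega)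
    obtain ⟨d, hd⟩ := Nat.exists_eq_succ_of_ne_zero h4.ne'
    rw [hd, Nat.pred_succ] at h3
    rw [hd, pow_succ]
    omega
  have h3 : J ≤ Nat.clog 2 N := by
    have : 2 ^ J ≤ 2 ^ Nat.clog 2 N := hNJ.trans h1
    exact (Nat.pow_le_pow_iff_right (by norm_num)).1 this
  obtain ⟨n, hn, hch⟩ := hJ _ h3
  rw [mem_Ioc] at hn
  refine ⟨n, _, by omega, by omega, hch, ?_⟩
  refine le_trans ?_ (Nat.le_ceil _)
  have hm0 := mm_nonneg κ hN
  have hr0 : 0 ≤ 1 - 1 / ((r : ℝ) + 1) := by
    rw [sub_nonneg, div_le_one (by positivity)]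
    have : (0:ℝ) ≤ r := Nat.cast_nonneg _
    linarith
  have hmle : mm κ N ≤ mm κ (2 ^ Nat.clog 2 N) := by
    unfold mm
    apply min_le_min
    · have : (κ N : ℝ) ≤ κ (2 ^ Nat.clog 2 N) := by exact_mod_cast hκ h1
      linarith
    · exact hmono _ _ hN h1
  calc (1 - ε) * mm κ N ≤ (1 - 1 / ((r : ℝ) + 1)) * mm κ N :=
        mul_le_mul_of_nonneg_right (by linarith) hm0
    _ ≤ _ := mul_le_mul_of_nonneg_left hmle hr0

end Pool.Agent.H67.CC
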