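import Pool.Agent.H67.CC.Stm

set_option autoImplicit false

namespace Pool.Agent.H67.CC

open Finset MeasureTheory Filter Topology

theorem s_not (h : S_GG) : S_NOT := by
  intro κ A hκ hκt hU hL ε₀ hε₀
  obtain ⟨h1, h2, h3, h4, h5⟩ := h
  set ε : ℝ := min (1 / 2) (ε₀ / 12) with hε
  have hεp : 0 < ε := lt_min (by norm_num) (by positivity)
  have hε1 : ε ≤ 1 / 2 := min_le_left _ _
  have hε2 : 12 * ε ≤ ε₀ := by
    have := min_le_right (1 / 2 : ℝ) (ε₀ / 12)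
    rw [← hε] at this
    linarith
  have ht : Tendsto (fun N : ℕ => ⌊(N : ℝ) ^ (1 / (1 + ε))⌋₊) atTop atTop :=
    tendsto_nat_floor_atTop.comp ((tendsto_rpow_atTop (by positivity)).comp
      tendsto_natCast_atTop_atTop)
  filter_upwards [hU ε hεp, ht.eventually (hL ε hεp), h5 ε hεp, h2.eventually_ge_atTop 0,
    ht.eventually (h2.eventually_ge_atTop 0)] with N a1 a2 a3 a4 a5
  set N' : ℕ := ⌊(N : ℝ) ^ (1 / (1 + ε))⌋₊ with hN'
  have hNn : (0 : ℝ) ≤ N := Nat.cast_nonneg N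
  have b1 : (longest A N' : ℝ) ≤ (1 + ε) * (κ N / 2) := by
    have hnn : (0 : ℝ) ≤ (1 + ε) * (κ N / 2) := by positivity
    have : longest A N' ≤ ⌊(1 + ε) * ((κ N : ℝ) / 2)⌋₊ := by
      unfold longest
      refine csSup_le' ?_
      rintro k ⟨n, hn, hk⟩
      refine Nat.le_floor ?_
      have hn' : (n : ℝ) ≤ (N : ℝ) ^ (1 / (1 + ε)) :=
        (Nat.cast_le.2 hn).trans (Nat.floor_le (Real.rpow_nonneg hNn _))
      have hn2 : (n : ℝ) ^ (1 + ε) ≤ N := by
        calc (n : ℝ) ^ (1 + ε) ≤ ((N : ℝ) ^ (1 / (1 + ε))) ^ (1 + ε) :=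
              Real.rpow_le_rpow (Nat.cast_nonneg n) hn' (by positivity)
          _ = N := by
              rw [← Real.rpow_mul hNn, one_div, inv_mul_cancel₀ (by positivity), Real.rpow_one]
      have := a1 n k hn2 hk
      refine this.trans (mul_le_mul_of_nonneg_left (min_le_left _ _) (by positivity))
    exact (Nat.cast_le.2 this).trans (Nat.floor_le hnn)
  have b2 : (1 - ε) * gg N' ≤ (1 + ε) * (κ N / 2) := a2.trans b1
  rcases le_or_gt (2 - ε₀) 0 with hc | hc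
  · have : (2 - ε₀) * gg N ≤ 0 := mul_nonpos_of_nonpos_of_nonneg hc a4
    exact this.trans (Nat.cast_nonneg _)
  · have c1 : (2 - ε₀) * gg N ≤ (2 - ε₀) * ((1 + 2 * ε) * gg N') :=
      mul_le_mul_of_nonneg_left a3 hc.le
    have c2 : (2 - ε₀) * (1 + 2 * ε) * (1 + ε) ≤ 2 * (1 - ε) := by
      have : (1 + 2 * ε) * (1 + ε) ≤ 1 + 5 * ε := by nlinarith
      calc (2 - ε₀) * (1 + 2 * ε) * (1 + ε) = (2 - ε₀) * ((1 + 2 * ε) * (1 + ε)) := by ring
        _ ≤ (2 - ε₀) * (1 + 5 * ε) := mul_le_mul_of_nonneg_left this hc.le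
        _ ≤ 2 * (1 - ε) := by nlinarith
    have c3 : (2 - ε₀) * ((1 + 2 * ε) * gg N') * (1 + ε) ≤ κ N * (1 + ε) := by
      calc (2 - ε₀) * ((1 + 2 * ε) * gg N') * (1 + ε) =
            ((2 - ε₀) * (1 + 2 * ε) * (1 + ε)) * gg N' := by ring
        _ ≤ (2 * (1 - ε)) * gg N' := mul_le_mul_of_nonneg_right c2 a5
        _ = 2 * ((1 - ε) * gg N') := by ring
        _ ≤ 2 * ((1 + ε) * (κ N / 2)) := by linarith
        _ = κ N * (1 + ε) := by ring
    exact c1.trans (le_of_mul_le_mul_right c3 (by positivity))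

end Pool.Agent.H67.CC
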