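import Pool.Agent.H67.CC.Up

/-! # The longest Cunningham chain in models with limited independence: statements -/

set_option autoImplicit false

namespace Pool.Agent.H67.CC

open Finset MeasureTheory Filter Topology

/-- `A` contains the chain of length `k` which starts at `n` -/
def Ch (A : Set ℕ) (n k : ℕ) : Prop := ∀ i < k, 2 ^ i * (n + 1) - 1 ∈ A

/-- the function `log n / log log n` -/
noncomputable def gg (n : ℕ) : ℝ := Real.log n / Real.log (Real.log n)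

/-- the minimum of `κ n / 2` and `log n / log log n` -/
noncomputable def mm (κ : ℕ → ℕ) (n : ℕ) : ℝ := min ((κ n : ℝ) / 2) (gg n)

/-- the length of the longest chain with starting point at most `N` (`0` if there is no longest) -/
noncomputable def longest (A : Set ℕ) (N : ℕ) : ℕ := sSup {k | ∃ n ≤ N, Ch A n k}

/-- long chains start in `(N, 4 N]` -/
def LowerP (κ : ℕ → ℕ) (A : Set ℕ) : Prop :=
  ∀ ε : ℝ, 0 < ε → ∀ᶠ N : ℕ in atTop, ∃ n k : ℕ, N < n ∧ n ≤ 4 * N ∧ Ch A n k ∧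
    (1 - ε) * mm κ N ≤ k

/-- the consequence of the first moment bound -/
def FirstP (κ : ℕ → ℕ) (A : Set ℕ) : Prop :=
  ∀ ε : ℝ, 0 < ε → ∀ᶠ n : ℕ in atTop, ⌈(1 + ε) * gg n⌉₊ ≤ κ n → ¬ Ch A n ⌈(1 + ε) * gg n⌉₊

/-- truncation of `κ` -/
noncomputable def tt (κ : ℕ → ℕ) (n : ℕ) : ℕ := if 16 ≤ n then min (κ n) ⌊4 * gg n⌋₊ else 0

/-- binary logarithm of the truncation -/
noncomputable def uu (κ : ℕ → ℕ) (n : ℕ) : ℕ := Nat.log 2 (tt κ n)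

/-- the spacing of the edges -/
noncomputable def ss (κ : ℕ → ℕ) (n : ℕ) : ℕ := 2 ^ (uu κ n - Nat.log 4 (uu κ n / 2))

/-- `A` contains only finitely many edges -/
def GridP (κ : ℕ → ℕ) (A : Set ℕ) : Prop :=
  ∀ᶠ n : ℕ in atTop, (κ n : ℝ) ≤ 4 * gg n → ss κ n ∣ padicValNat 2 (n + 1) →
    ¬ Ch A n (κ n / 2 + 1)

/-- the upper bound for the lengths -/
def UpperP (κ : ℕ → ℕ) (A : Set ℕ) : Prop :=
  ∀ ε : ℝ, 0 < ε → ∀ᶠ N : ℕ in atTop, ∀ n k : ℕ, (n : ℝ) ^ (1 + ε) ≤ N → Ch A n k →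
    (k : ℝ) ≤ (1 + ε) * mm κ N

/-- elementary facts on `log n / log log n` -/
def S_GG : Prop :=
  (∀ m n : ℕ, 16 ≤ m → m ≤ n → gg m ≤ gg n) ∧
  Tendsto gg atTop atTop ∧
  (∀ δ : ℝ, 0 < δ → ∀ᶠ n : ℕ in atTop, gg n ≤ δ * Real.log n) ∧
  (∀ c : ℝ, 1 < c → ∀ᶠ N : ℕ in atTop, gg (4 * N) ≤ c * gg N) ∧
  (∀ ε : ℝ, 0 < ε → ∀ᶠ N : ℕ in atTop, gg N ≤ (1 + 2 * ε) * gg ⌊(N : ℝ) ^ (1 / (1 + ε))⌋₊)

/-- the lower bound in every model -/
def S_LOW : Prop :=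
  ∀ {Ω : Type} [MeasurableSpace Ω] (P : Measure Ω) [IsProbabilityMeasure P] (κ : ℕ → ℕ)
    (E : ℕ → Set Ω), Model P κ E → Monotone κ → Tendsto κ atTop atTop →
    ∀ᵐ ω ∂P, LowerP κ {n | ω ∈ E n}

/-- the first moment bound in every model -/
def S_FIRST : Prop :=
  ∀ {Ω : Type} [MeasurableSpace Ω] (P : Measure Ω) [IsProbabilityMeasure P] (κ : ℕ → ℕ)
    (E : ℕ → Set Ω), Model P κ E → Monotone κ →
    ∀ᵐ ω ∂P, FirstP κ {n | ω ∈ E n}

/-- the model without edges -/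
def S_GRID : Prop :=
  ∀ κ : ℕ → ℕ, Monotone κ → Tendsto κ atTop atTop →
    ∃ (Ω : Type) (_ : MeasurableSpace Ω) (P : Measure Ω) (_ : IsProbabilityMeasure P)
      (E : ℕ → Set Ω), Model P κ E ∧ ∀ᵐ ω ∂P, GridP κ {n | ω ∈ E n}

/-- deterministic: no edges and the first moment bound imply the upper bound -/
def S_UPP : Prop :=
  ∀ (κ : ℕ → ℕ) (A : Set ℕ), Monotone κ → Tendsto κ atTop atTop → GridP κ A → FirstP κ A →
    UpperP κ A

/-- deterministic: the law for the longest chain -/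
def S_LAW : Prop :=
  ∀ (κ : ℕ → ℕ) (A : Set ℕ), Monotone κ →
    (∀ ε : ℝ, 0 < ε → ∀ᶠ n : ℕ in atTop, (2 - ε) * gg n ≤ κ n) →
    LowerP κ A → FirstP κ A → Tendsto (fun N : ℕ => (longest A N : ℝ) / gg N) atTop (𝓝 1)

/-- deterministic: the upper bound contradicts the law if `κ` is often small -/
def S_NOT : Prop :=
  ∀ (κ : ℕ → ℕ) (A : Set ℕ), Monotone κ → Tendsto κ atTop atTop → UpperP κ A →
    (∀ ε : ℝ, 0 < ε → ∀ᶠ N : ℕ in atTop, (1 - ε) * gg N ≤ longest A N) →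
    (∀ ε : ℝ, 0 < ε → ∀ᶠ n : ℕ in atTop, (2 - ε) * gg n ≤ κ n)

end Pool.Agent.H67.CC
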