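import Pool.Agent.H67.CC.Stm

set_option autoImplicit false

namespace Pool.Agent.H67.CC

open Finset MeasureTheory Filter Topology

namespace UPP

theorem mono_ch {A : Set ℕ} {n k K : ℕ} (h : Ch A n k) (hK : K ≤ k) : Ch A n K :=
  fun i hi => h i (hi.trans_le hK)

theorem shift {A : Set ℕ} {n k : ℕ} (h : Ch A n k) (j : ℕ) :
    Ch A (2 ^ j * (n + 1) - 1) (k - j) := by
  intro i hi
  have h0 : 1 ≤ 2 ^ j * (n + 1) := Nat.one_le_iff_ne_zero.2 (by positivity)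
  have h1 : 2 ^ j * (n + 1) - 1 + 1 = 2 ^ j * (n + 1) := by omega
  rw [h1, ← mul_assoc, ← pow_add]
  exact h (i + j) (by omega)

theorem expo_mono : Monotone fun x : ℕ => x - Nat.log 4 (x / 2) := by
  refine monotone_nat_of_le_succ fun x => ?_
  have h : Nat.log 4 ((x + 1) / 2) ≤ Nat.log 4 (x / 2) + 1 := by
    rcases Nat.eq_zero_or_pos (x / 2) with h0 | h0
    · have h2 : Nat.log 4 ((x + 1) / 2) = 0 := Nat.log_of_lt (by omega)
      omega
    · have h1 : (x + 1) / 2 ≤ x / 2 * 4 := by omega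
      have h2 : Nat.log 4 ((x + 1) / 2) ≤ Nat.log 4 (x / 2 * 4) := Nat.log_mono_right h1
      rwa [Nat.log_mul_base (by norm_num) h0.ne'] at h2
  show x - Nat.log 4 (x / 2) ≤ x + 1 - Nat.log 4 ((x + 1) / 2)
  omega

theorem tt_mono (h1 : ∀ m n : ℕ, 16 ≤ m → m ≤ n → gg m ≤ gg n) {κ : ℕ → ℕ} (hκ : Monotone κ)
    {m n : ℕ} (hmn : m ≤ n) : tt κ m ≤ tt κ n := by
  unfold tt
  by_cases hm : 16 ≤ m
  · rw [if_pos hm, if_pos (hm.trans hmn)]
    refine min_le_min (hκ hmn) (Nat.floor_mono ?_)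
    have := h1 m n hm hmn
    linarith
  · rw [if_neg hm]
    exact Nat.zero_le _

theorem ss_dvd (h1 : ∀ m n : ℕ, 16 ≤ m → m ≤ n → gg m ≤ gg n) {κ : ℕ → ℕ} (hκ : Monotone κ)
    {m n : ℕ} (hmn : m ≤ n) : ss κ m ∣ ss κ n := by
  unfold ss
  refine pow_dvd_pow 2 (expo_mono ?_)
  exact Nat.log_mono_right (tt_mono h1 hκ hmn)

theorem tt_le_mm {κ : ℕ → ℕ} {n : ℕ} (hg : 0 ≤ gg n) : (tt κ n : ℝ) ≤ 4 * mm κ n := by
  unfold tt mm
  have hm0 : (0 : ℝ) ≤ min ((κ n : ℝ) / 2) (gg n) := le_min (by positivity) hg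
  split_ifs with h
  · rw [mul_min_of_nonneg _ _ (by norm_num : (0 : ℝ) ≤ 4), Nat.cast_min]
    refine min_le_min ?_ (Nat.floor_le (by positivity))
    have : (0 : ℝ) ≤ κ n := Nat.cast_nonneg _
    linarith
  · push_cast
    positivity

theorem ss_mul_le {κ : ℕ → ℕ} {n : ℕ} (ht : tt κ n ≠ 0) :
    ss κ n * 2 ^ (Nat.log 4 (uu κ n / 2)) ≤ tt κ n := by
  unfold ss
  rw [← pow_add]
  have h1 : Nat.log 4 (uu κ n / 2) ≤ uu κ n := by
    refine (Nat.log_le_self 4 _).trans (Nat.div_le_self _ _)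
  rw [Nat.sub_add_cancel h1]
  exact Nat.pow_log_le_self 2 ht

theorem tt_tendsto (h2 : Tendsto gg atTop atTop) {κ : ℕ → ℕ} (hκt : Tendsto κ atTop atTop)
    (C : ℕ) : ∀ᶠ N in atTop, C ≤ tt κ N := by
  filter_upwards [hκt.eventually_ge_atTop C, h2.eventually_ge_atTop (C : ℝ),
    eventually_ge_atTop 16] with N a1 a2 a3
  unfold tt
  rw [if_pos a3]
  refine le_min a1 (Nat.le_floor ?_)
  have : (0 : ℝ) ≤ C := Nat.cast_nonneg _
  linarith

theorem log_tendsto (h2 : Tendsto gg atTop atTop) {κ : ℕ → ℕ} (hκt : Tendsto κ atTop atTop)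
    (H : ℕ) : ∀ᶠ N in atTop, H ≤ Nat.log 4 (uu κ N / 2) := by
  filter_upwards [tt_tendsto h2 hκt (2 ^ (2 * 4 ^ H))] with N a1
  have b1 : 2 * 4 ^ H ≤ uu κ N := Nat.le_log_of_pow_le (by norm_num) a1
  exact Nat.le_log_of_pow_le (by norm_num) (by omega)

/-- the bound for special starting points -/
theorem special (h1 : ∀ m n : ℕ, 16 ≤ m → m ≤ n → gg m ≤ gg n) {κ : ℕ → ℕ} (hκ : Monotone κ)
    {A : Set ℕ} {ε₁ : ℝ} (hp : 0 < ε₁) (hq : ε₁ ≤ 1 / 4) {n N : ℕ} (hn : 16 ≤ n) (hnN : n ≤ N)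
    (hg : 4 ≤ gg n)
    (hG : (κ n : ℝ) ≤ 4 * gg n → ss κ n ∣ padicValNat 2 (n + 1) → ¬ Ch A n (κ n / 2 + 1))
    (hF : ⌈(1 + ε₁) * gg n⌉₊ ≤ κ n → ¬ Ch A n ⌈(1 + ε₁) * gg n⌉₊)
    (hd : ss κ N ∣ padicValNat 2 (n + 1)) {k : ℕ} (hc : Ch A n k) :
    (k : ℝ) ≤ (1 + ε₁) * mm κ N + 1 := by
  have hgN : gg n ≤ gg N := h1 n N hn hnN
  have hκN : (κ n : ℝ) ≤ κ N := by exact_mod_cast hκ hnN
  have hnn : 0 ≤ (1 + ε₁) * gg n := by positivity
  have b1 := Nat.ceil_lt_add_one hnn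
  have hFk : ⌈(1 + ε₁) * gg n⌉₊ ≤ κ n → (k : ℝ) ≤ (1 + ε₁) * gg n + 1 := by
    intro h
    have b3 := hF h
    have b4 : k < ⌈(1 + ε₁) * gg n⌉₊ := by
      by_contra hcon
      push Not at hcon
      exact b3 (mono_ch hc hcon)
    have b5 : (k : ℝ) < ⌈(1 + ε₁) * gg n⌉₊ := by exact_mod_cast b4
    linarith
  have hmul : (1 + ε₁) * gg n ≤ (1 + ε₁) * gg N := mul_le_mul_of_nonneg_left hgN (by positivity)
  have main : (k : ℝ) ≤ κ N / 2 ∧ (k : ℝ) ≤ (1 + ε₁) * gg N + 1 := by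
    rcases le_or_gt ((κ n : ℝ)) (4 * gg n) with hcase | hcase
    · have a1 := hG hcase ((ss_dvd h1 hκ hnN).trans hd)
      have a2 : k ≤ κ n / 2 := by
        by_contra hcon
        push Not at hcon
        exact a1 (mono_ch hc hcon)
      have a3 : (k : ℝ) ≤ κ n / 2 := by
        have h5 : 2 * k ≤ κ n := by omega
        have h6 : 2 * (k : ℝ) ≤ κ n := by exact_mod_cast h5
        linarith
      refine ⟨by linarith, ?_⟩
      rcases le_or_gt (⌈(1 + ε₁) * gg n⌉₊) (κ n) with hcase2 | hcase2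
      · have := hFk hcase2
        linarith
      · have : (κ n : ℝ) < ⌈(1 + ε₁) * gg n⌉₊ := by exact_mod_cast hcase2
        linarith
    · have a1 : ⌈(1 + ε₁) * gg n⌉₊ ≤ κ n := by
        have : (⌈(1 + ε₁) * gg n⌉₊ : ℝ) ≤ κ n := by nlinarith
        exact_mod_cast this
      have a2 := hFk a1
      refine ⟨?_, by linarith⟩
      nlinarith
  unfold mm
  rw [mul_min_of_nonneg _ _ (by positivity : (0 : ℝ) ≤ 1 + ε₁), ← min_add_add_right]
  refine le_min ?_ main.2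
  have : (0 : ℝ) ≤ κ N := Nat.cast_nonneg _
  nlinarith [main.1]

theorem exists_shift (v w : ℕ) (hw : 0 < w) : ∃ j < w, w ∣ v + j := by
  rcases Nat.eq_zero_or_pos (v % w) with h | h
  · exact ⟨0, hw, by simpa using Nat.dvd_of_mod_eq_zero h⟩
  · have h1 := Nat.mod_lt v hw
    refine ⟨w - v % w, by omega, ?_⟩
    have h2 := Nat.div_add_mod v w
    refine ⟨v / w + 1, ?_⟩
    rw [mul_add, mul_one]
    omega

end UPP

open UPP

theorem s_upp (h : S_GG) : S_UPP := by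
  intro κ A hκ hκt hG hF ε hε
  obtain ⟨h1, h2, h3, h4, h5⟩ := h
  set ε₁ : ℝ := min (1 / 4) (ε / 2) with hε1
  have hp : 0 < ε₁ := lt_min (by norm_num) (by positivity)
  have hq : ε₁ ≤ 1 / 4 := min_le_left _ _
  have hr : 2 * ε₁ ≤ ε := by
    have := min_le_right (1 / 4 : ℝ) (ε / 2)
    rw [← hε1] at this
    linarith
  set δ : ℝ := ε / (2 * (1 + ε)) with hδ
  have hδp : 0 < δ := by positivity
  have hδe : δ + (δ + 1 / (1 + ε)) = 1 := by rw [hδ]; field_simp; ring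
  obtain ⟨i₀, hi₀⟩ := eventually_atTop.1 ((hF ε₁ hp).and (hG.and
    ((h2.eventually_ge_atTop 4).and (eventually_ge_atTop 16))))
  have hpowi : i₀ < 2 ^ i₀ := Nat.lt_two_pow_self
  obtain ⟨H, hH⟩ := pow_unbounded_of_one_lt (16 / ε) (by norm_num : (1 : ℝ) < 2)
  have hmm : Tendsto (mm κ) atTop atTop := by
    refine tendsto_atTop.2 fun b => ?_
    filter_upwards [h2.eventually_ge_atTop b, (tendsto_natCast_atTop_atTop.comp
      hκt).eventually_ge_atTop (2 * b)] with N a1 a2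
    refine le_min ?_ a1
    have : (2 * b : ℝ) ≤ κ N := a2
    linarith
  have hNδ : Tendsto (fun N : ℕ => (N : ℝ) ^ δ) atTop atTop :=
    (tendsto_rpow_atTop hδp).comp tendsto_natCast_atTop_atTop
  filter_upwards [hNδ.eventually_ge_atTop (2 ^ (i₀ + 1)), h3 (δ / 4) (by positivity),
    hmm.eventually_ge_atTop ((i₀ + 1) / (ε / 4)), log_tendsto h2 hκt H,
    tt_tendsto h2 hκt 1, eventually_ge_atTop 16, h2.eventually_ge_atTop 0]
    with N c1 c2 c3 c4 c5 c6 c7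
  intro n k hnN hc
  have hN1 : (1 : ℝ) ≤ N := by exact_mod_cast (by omega : 1 ≤ N)
  have hN0 : (0 : ℝ) < N := by linarith
  set w := ss κ N with hw
  have hw0 : 0 < w := by rw [hw]; unfold ss; positivity
  have htt0 : tt κ N ≠ 0 := by omega
  have htt : (tt κ N : ℝ) ≤ 4 * mm κ N := tt_le_mm c7
  -- bounds for `w`
  have w1 : w * 2 ^ (Nat.log 4 (uu κ N / 2)) ≤ tt κ N := ss_mul_le htt0
  have w2 : w ≤ tt κ N := (Nat.le_mul_of_pos_right _ (by positivity)).trans w1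
  have w3 : (w : ℝ) ≤ δ * Real.log N := by
    have a1 : (w : ℝ) ≤ tt κ N := by exact_mod_cast w2
    have a2 : (mm κ N) ≤ gg N := min_le_right _ _
    linarith
  have w4 : (w : ℝ) ≤ ε / 4 * mm κ N := by
    have a1 : (w : ℝ) * 2 ^ H ≤ tt κ N := by
      have : w * 2 ^ H ≤ tt κ N :=
        (Nat.mul_le_mul_left _ (Nat.pow_le_pow_right (by norm_num) c4)).trans w1
      exact_mod_cast this
    have a2 : (w : ℝ) * (16 / ε) ≤ w * 2 ^ H := mul_le_mul_of_nonneg_left hH.le (by positivity)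
    have a3 : (w : ℝ) * (16 / ε) ≤ 4 * mm κ N := a2.trans (a1.trans htt)
    rw [mul_div_assoc', div_le_iff₀ hε] at a3
    linarith
  -- the special starting point
  set n₁ := 2 ^ i₀ * (n + 1) - 1 with hn₁
  have hn₁e : n₁ + 1 = 2 ^ i₀ * (n + 1) := by
    have : 1 ≤ 2 ^ i₀ * (n + 1) := Nat.one_le_iff_ne_zero.2 (by positivity)
    omega
  obtain ⟨j, hj, hjd⟩ := exists_shift (padicValNat 2 (n₁ + 1)) w hw0
  set n' := 2 ^ j * (n₁ + 1) - 1 with hn'
  have hn'e : n' + 1 = 2 ^ j * (n₁ + 1) := by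
    have : 1 ≤ 2 ^ j * (n₁ + 1) := Nat.one_le_iff_ne_zero.2 (by positivity)
    omega
  have hv : padicValNat 2 (n' + 1) = padicValNat 2 (n₁ + 1) + j := by
    rw [hn'e, padicValNat.mul (by positivity) (by positivity), padicValNat.prime_pow, add_comm]
  have hge : i₀ ≤ n' := by
    have a1 : 2 ^ i₀ * 1 ≤ 2 ^ i₀ * (n + 1) := Nat.mul_le_mul_left _ (by omega)
    have a2 : 1 * (n₁ + 1) ≤ 2 ^ j * (n₁ + 1) := Nat.mul_le_mul_right _ Nat.one_le_two_pow
    omega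
  have hle : n' ≤ N := by
    have a1 : (n : ℝ) ≤ (N : ℝ) ^ (1 / (1 + ε)) := by
      have : ((n : ℝ) ^ (1 + ε)) ^ (1 / (1 + ε)) ≤ (N : ℝ) ^ (1 / (1 + ε)) :=
        Real.rpow_le_rpow (by positivity) hnN (by positivity)
      rwa [← Real.rpow_mul (Nat.cast_nonneg n), mul_one_div_cancel (by positivity),
        Real.rpow_one] at this
    have a2 : (1 : ℝ) ≤ (N : ℝ) ^ (1 / (1 + ε)) := Real.one_le_rpow hN1 (by positivity)
    have a3 : (2 : ℝ) ^ j ≤ (N : ℝ) ^ δ := by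
      calc (2 : ℝ) ^ j ≤ 2 ^ w := pow_le_pow_right₀ (by norm_num) hj.le
        _ ≤ (Real.exp 1) ^ w := by
            apply pow_le_pow_left₀ (by norm_num)
            linarith [Real.add_one_le_exp (1 : ℝ)]
        _ = Real.exp w := by rw [← Real.exp_nat_mul, mul_one]
        _ ≤ Real.exp (Real.log N * δ) := Real.exp_le_exp.2 (by linarith)
        _ = (N : ℝ) ^ δ := by rw [Real.rpow_def_of_pos hN0]
    have a4 : ((n' : ℝ) + 1) = 2 ^ j * (2 ^ i₀ * (n + 1)) := by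
      have := hn'e
      rw [hn₁e] at this
      exact_mod_cast this
    have a5 : (n' : ℝ) + 1 ≤ N := by
      rw [a4]
      calc (2 : ℝ) ^ j * (2 ^ i₀ * (n + 1))
          ≤ (N : ℝ) ^ δ * (2 ^ i₀ * (2 * (N : ℝ) ^ (1 / (1 + ε)))) := by
            refine mul_le_mul a3 (mul_le_mul_of_nonneg_left (by linarith) (by positivity))
              (by positivity) (by positivity)
        _ = 2 ^ (i₀ + 1) * ((N : ℝ) ^ δ * (N : ℝ) ^ (1 / (1 + ε))) := by rw [pow_succ]; ring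
        _ ≤ (N : ℝ) ^ δ * ((N : ℝ) ^ δ * (N : ℝ) ^ (1 / (1 + ε))) :=
            mul_le_mul_of_nonneg_right c1 (by positivity)
        _ = N := by
            rw [← Real.rpow_add hN0, ← Real.rpow_add hN0, hδe, Real.rpow_one]
    have a6 : n' + 1 ≤ N := by exact_mod_cast a5
    omega
  obtain ⟨f1, f2, f3, f4⟩ := hi₀ n' hge
  have hc' : Ch A n' (k - i₀ - j) := shift (shift hc i₀) j
  have hsp := special h1 hκ hp hq f4 hle f3 f2 f1 (by rw [hv]; exact hjd) hc'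
  have hk : (k : ℝ) ≤ ((k - i₀ - j : ℕ) : ℝ) + i₀ + w := by
    have : k ≤ (k - i₀ - j) + i₀ + w := by omega
    exact_mod_cast this
  have hmm0 : 0 ≤ mm κ N := le_min (by positivity) c7
  have hi : (i₀ : ℝ) + 1 ≤ ε / 4 * mm κ N := by
    rw [div_le_iff₀ (by positivity)] at c3
    linarith
  have : (2 * ε₁) * mm κ N ≤ ε * mm κ N := mul_le_mul_of_nonneg_right hr hmm0
  linarith

end Pool.Agent.H67.CC
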