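import Pool.Agent.H67.CC.Forms

/-! # Systems of linear forms in the model with independence of order `2k` -/

set_option autoImplicit false

namespace Pool.Agent.H67.CC

open Finset MeasureTheory Filter Topology Asymptotics
open Q198.CI

/-- Cramér's model with independence of order `κ` -/
structure Model {Ω : Type*} [MeasurableSpace Ω] (P : Measure Ω) (κ : ℕ → ℕ) (E : ℕ → Set Ω) :
    Prop where
  meas : ∀ n, MeasurableSet (E n)
  indep : ∀ T : Finset ℕ, (∀ n ∈ T, 3 ≤ n ∧ T.card ≤ κ n) →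
    P (⋂ n ∈ T, E n) = ENNReal.ofReal (∏ n ∈ T, 1 / Real.log n)

lemma Model.mono {Ω : Type*} [MeasurableSpace Ω] {P : Measure Ω} {κ κ' : ℕ → ℕ} {E : ℕ → Set Ω}
    (hM : Model P κ E) (h : ∀ n, κ' n ≤ κ n) : Model P κ' E :=
  ⟨hM.meas, fun T hT => hM.indep T fun n hn => ⟨(hT n hn).1, (hT n hn).2.trans (h n)⟩⟩

/-- the probability of the inclusion of a set -/
lemma Model.real {Ω : Type*} [MeasurableSpace Ω] {P : Measure Ω} {κ : ℕ → ℕ} {E : ℕ → Set Ω}
    (hM : Model P κ E) {T : Finset ℕ} (hT : ∀ n ∈ T, 3 ≤ n ∧ T.card ≤ κ n) :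
    P.real (⋂ n ∈ T, E n) = ∏ n ∈ T, 1 / Real.log n := by
  unfold Measure.real
  rw [hM.indep T hT, ENNReal.toReal_ofReal]
  exact prod_nonneg fun a _ => one_div_nonneg.2 (Real.log_natCast_nonneg _)

/-- the event that all values of a system belong to the random set -/
def Sys {Ω : Type*} (E : ℕ → Set Ω) (L : Finset (ℕ × ℤ)) (n : ℕ) : Set Ω := ⋂ v ∈ pt L n, E v

lemma mem_Sys {Ω : Type*} (E : ℕ → Set Ω) (L : Finset (ℕ × ℤ)) (n : ℕ) (ω : Ω) :
    ω ∈ Sys E L n ↔ ∀ f ∈ L, ω ∈ E (value f n) := by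
  unfold Sys
  simp only [Set.mem_iInter, mem_pt]
  constructor
  · intro h f hf
    exact h _ ⟨f, hf, rfl⟩
  · rintro h v ⟨f, hf, rfl⟩
    exact h f hf

theorem systems_one {Ω : Type*} [MeasurableSpace Ω] {P : Measure Ω} [IsProbabilityMeasure P]
    {κ : ℕ → ℕ} {E : ℕ → Set Ω} (hM : Model P κ E) {L : Finset (ℕ × ℤ)} (hne : L.Nonempty)
    (hL : ∀ f ∈ L, 1 ≤ f.1) (hκ : ∀ᶠ n in atTop, 2 * L.card ≤ κ n) :
    ∀ᵐ ω ∂P, Tendsto (fun x : ℝ =>
      (({n : ℕ | (n : ℝ) ≤ x ∧ ∀ f ∈ L, ω ∈ E (value f n)}.ncard : ℕ) : ℝ) *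
      Real.log x ^ L.card / x) atTop (𝓝 1) := by
  classical
  obtain ⟨n₁, hn₁⟩ := eventually_atTop.1 hκ
  set n₀ := max (2 * n₁) (bd L) with hn₀
  have hbd : ∀ n, n₀ ≤ n → bd L ≤ n := fun n hn => (le_max_right _ _).trans hn
  have hv : ∀ n, n₀ ≤ n → ∀ v ∈ pt L n, 3 ≤ v ∧ 2 * L.card ≤ κ v := by
    intro n hn v hv
    rw [mem_pt] at hv
    obtain ⟨f, hf, rfl⟩ := hv
    have h1 := value_ge hf (hL f hf) (hbd n hn)
    have h2 := natAbs_le_bd hf
    have h3 := hbd n hn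
    have h4 := (le_max_left _ _).trans hn
    exact ⟨by omega, hn₁ _ (by omega)⟩
  have h := count_law (P := P) (F := Sys E L)
    (fun n => Finset.measurableSet_biInter _ fun a _ => hM.meas _) hne.card_pos
    (value_equiv hL) (n₀ := n₀) (fun n hn => ?_) (D := DD L) (DD_card L)
    (fun n n' hn hn' hD => ?_)
  · filter_upwards [h] with ω hω
    simpa only [mem_Sys] using hω
  · unfold Sys
    rw [hM.real, prod_pt hL (hbd n hn)]
    intro v hv'
    rw [pt_card hL (hbd n hn)]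
    have := hv n hn v hv'
    exact ⟨this.1, by omega⟩
  · have hdis := disj hL (hbd n' hn') hD
    have h1 : Sys E L n ∩ Sys E L n' = ⋂ v ∈ pt L n ∪ pt L n', E v := by
      unfold Sys
      ext ω
      simp only [Set.mem_iInter, mem_union, Set.mem_inter_iff]
      constructor
      · rintro ⟨hx, hy⟩ i (hi | hi)
        · exact hx i hi
        · exact hy i hi
      · exact fun hx => ⟨fun i hi => hx i (Or.inl hi), fun i hi => hx i (Or.inr hi)⟩
    rw [h1, hM.real, prod_union hdis, prod_pt hL (hbd n hn), prod_pt hL (hbd n' hn')]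
    intro v hv'
    rw [card_union_of_disjoint hdis, pt_card hL (hbd n hn), pt_card hL (hbd n' hn')]
    rw [mem_union] at hv'
    rcases hv' with h2 | h2
    · have := hv n hn v h2
      exact ⟨this.1, by omega⟩
    · have := hv n' hn' v h2
      exact ⟨this.1, by omega⟩

theorem systems_asymp {Ω : Type*} [MeasurableSpace Ω] {P : Measure Ω} [IsProbabilityMeasure P]
    {κ : ℕ → ℕ} {E : ℕ → Set Ω} (hM : Model P κ E) {k : ℕ} (hκ : ∀ᶠ n in atTop, 2 * k ≤ κ n) :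
    ∀ᵐ ω ∂P, ∀ L : Finset (ℕ × ℤ), L.Nonempty → L.card ≤ k → (∀ f ∈ L, 1 ≤ f.1) →
      Tendsto (fun x : ℝ =>
      (({n : ℕ | (n : ℝ) ≤ x ∧ ∀ f ∈ L, ω ∈ E (value f n)}.ncard : ℕ) : ℝ) *
      Real.log x ^ L.card / x) atTop (𝓝 1) := by
  rw [ae_all_iff]
  intro L
  by_cases hL : L.Nonempty ∧ L.card ≤ k ∧ ∀ f ∈ L, 1 ≤ f.1
  · obtain ⟨h1, h2, h3⟩ := hL
    filter_upwards [systems_one hM h1 h3 (by
      filter_upwards [hκ] with n hn
      omega)] with ω hω _ _ _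
    exact hω
  · exact ae_of_all _ fun ω h1 h2 h3 => absurd ⟨h1, h2, h3⟩ hL

lemma infinite_of_asymp {s : ℕ → Prop} {r : ℕ}
    (H : Tendsto (fun x : ℝ => (({n : ℕ | (n : ℝ) ≤ x ∧ s n}.ncard : ℕ) : ℝ) *
      Real.log x ^ r / x) atTop (𝓝 1)) : {n : ℕ | s n}.Infinite := by
  intro hfin
  set K : ℕ := {n : ℕ | s n}.ncard with hK
  have h1 : Tendsto (fun x : ℝ => (K : ℝ) * (Real.log x ^ r / x)) atTop (𝓝 0) := by
    have h2 : Tendsto (fun x : ℝ => Real.log x ^ r / x) atTop (𝓝 0) :=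
      (Real.isLittleO_pow_log_id_atTop (n := r)).tendsto_div_nhds_zero
    have := h2.const_mul (K : ℝ)
    rwa [mul_zero] at this
  have h2 : (1 : ℝ) ≤ 0 := by
    apply le_of_tendsto_of_tendsto H h1
    filter_upwards [eventually_ge_atTop (1:ℝ)] with x hx
    rw [mul_div_assoc]
    apply mul_le_mul_of_nonneg_right
    · have : {n : ℕ | (n : ℝ) ≤ x ∧ s n}.ncard ≤ K :=
        Set.ncard_le_ncard (fun n hn => hn.2) hfin
      exact_mod_cast this
    · exact div_nonneg (pow_nonneg (Real.log_nonneg hx) _) (by linarith)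
  linarith

end Pool.Agent.H67.CC
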